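import Pool.Agent.Lib_ad0b27_coord.Upper

/-!
Any axis; count of pairs.
-/

namespace OneCoord

/-- degree of a point in the distance graph -/
noncomputable def deg (α : ℝ) (P : Finset E3) (p : E3) : ℕ :=
  (P.filter (fun q => ‖p - q‖ = α)).card

theorem exists_small_degree_axis (K : Subfield ℝ) (α : ℝ) (hα : Transcendental K α)
    (v : E3) (hv : ‖v‖ = 1) (P : Finset E3) (hne : P.Nonempty) (hP : ∀ p ∈ P, ‖p‖ = 1)
    (hK : ∀ p ∈ P, inner ℝ v p ∈ K) :
    ∃ p ∈ P, (deg α P p : ℝ) ≤ 91 * √(Real.logb 2 P.card + 1) := by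
  classical
  set e : E3 := EuclideanSpace.single 2 1 with he
  have he1 : ‖e‖ = 1 := by rw [he]; simp
  set f := (Submodule.span ℝ {v - e})ᗮ.reflection with hf
  have hfv : f v = e := Submodule.reflection_sub (by rw [hv, he1])
  have hinj : Function.Injective f := f.injective
  have hP' : ∀ p ∈ P.image f, ‖p‖ = 1 := by
    intro p hp
    obtain ⟨p', hp', rfl⟩ := Finset.mem_image.1 hp
    rw [f.norm_map]; exact hP p' hp'
  have hK' : ∀ p ∈ P.image f, p 2 ∈ K := by
    intro p hp
    obtain ⟨p', hp', rfl⟩ := Finset.mem_image.1 hp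
    have h1 : (f p') 2 = inner ℝ v p' := by
      rw [← f.inner_map_map v p', hfv, he, inner3]
      simp
    rw [h1]; exact hK p' hp'
  obtain ⟨p, hp, hb⟩ := exists_small_degree K α hα (P.image f) (hne.image f) hP' hK'
  obtain ⟨p', hp', rfl⟩ := Finset.mem_image.1 hp
  refine ⟨p', hp', ?_⟩
  have hc : (P.image f).card = P.card := Finset.card_image_of_injective _ hinj
  rw [hc] at hb
  have hd : ((P.image f).filter (fun q => ‖f p' - q‖ = α)).card = deg α P p' := by
    rw [deg, Finset.filter_image, Finset.card_image_of_injective _ hinj]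
    congr 1
    ext q
    simp only [Finset.mem_filter]
    rw [← map_sub, f.norm_map]
  rw [hd] at hb
  exact hb

/-- number of ordered pairs at distance `α` -/
noncomputable def pairs (α : ℝ) (P : Finset E3) : ℕ :=
  ((P ×ˢ P).filter (fun x => ‖x.1 - x.2‖ = α)).card

lemma pairs_eq (α : ℝ) (P : Finset E3) : pairs α P = ∑ p ∈ P, deg α P p := by
  classical
  rw [pairs, Finset.card_filter, Finset.sum_product]
  refine Finset.sum_congr rfl fun p _ => ?_
  rw [deg, Finset.card_filter]

lemma pairs_insert [DecidableEq E3] {α : ℝ} (hα : α ≠ 0) {P : Finset E3} {p : E3} (hp : p ∈ P) :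
    pairs α P = 2 * deg α P p + pairs α (P.erase p) := by
  rw [pairs_eq, pairs_eq]
  have h0 : ¬ ‖p - p‖ = α := by
    rw [sub_self, norm_zero]; exact fun h => hα h.symm
  have h1 : ∀ a ∈ P.erase p, deg α P a = deg α (P.erase p) a + if ‖p - a‖ = α then 1 else 0 := by
    intro a _
    rw [deg, deg]
    conv_lhs => rw [← Finset.insert_erase hp]
    rw [Finset.filter_insert]
    have hsymm : ‖a - p‖ = ‖p - a‖ := norm_sub_rev _ _
    by_cases h : ‖p - a‖ = α
    · rw [if_pos (hsymm.trans h), if_pos h, Finset.card_insert_of_notMem]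
      simp
    · rw [if_neg (fun h' => h (hsymm.symm.trans h')), if_neg h, add_zero]
  rw [← Finset.add_sum_erase P _ hp, Finset.sum_congr rfl h1, Finset.sum_add_distrib,
    ← Finset.card_filter]
  have h2 : ((P.erase p).filter (fun a => ‖p - a‖ = α)).card = deg α P p := by
    rw [deg]
    congr 1
    ext a
    simp only [Finset.mem_filter, Finset.mem_erase]
    constructor
    · rintro ⟨⟨_, h⟩, h'⟩; exact ⟨h, h'⟩
    · rintro ⟨h, h'⟩
      refine ⟨⟨?_, h⟩, h'⟩
      rintro rfl
      exact h0 h'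
  rw [h2]; ring

theorem pairs_le (K : Subfield ℝ) (α : ℝ) (hα : Transcendental K α)
    (v : E3) (hv : ‖v‖ = 1) (P : Finset E3) (hP : ∀ p ∈ P, ‖p‖ = 1)
    (hK : ∀ p ∈ P, inner ℝ v p ∈ K) :
    (pairs α P : ℝ) ≤ 182 * P.card * √(Real.logb 2 P.card + 1) := by
  classical
  have hα0 : α ≠ 0 := by
    rintro rfl
    exact hα (isAlgebraic_zero)
  have key : ∀ Q : Finset E3, Q ⊆ P →
      (pairs α Q : ℝ) ≤ 2 * Q.card * (91 * √(Real.logb 2 P.card + 1)) := by
    intro Q
    induction Q using Finset.strongInduction with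
    | H Q ih =>
    intro hQ
    rcases Q.eq_empty_or_nonempty with rfl | hne
    · simp [pairs]
    obtain ⟨p, hp, hb⟩ := exists_small_degree_axis K α hα v hv Q hne (fun p hp => hP p (hQ hp))
      (fun p hp => hK p (hQ hp))
    have h1 : Q.erase p ⊂ Q := Finset.erase_ssubset hp
    have h2 := ih _ h1 (h1.subset.trans hQ)
    have h3 : (Q.erase p).card + 1 = Q.card := Finset.card_erase_add_one hp
    have h3' : ((Q.erase p).card : ℝ) + 1 = Q.card := by exact_mod_cast h3
    have h4 : √(Real.logb 2 Q.card + 1) ≤ √(Real.logb 2 P.card + 1) := by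
      apply Real.sqrt_le_sqrt
      have h5 : (0 : ℝ) < Q.card := by exact_mod_cast hne.card_pos
      have h6 : (Q.card : ℝ) ≤ P.card := by exact_mod_cast Finset.card_le_card hQ
      have := Real.logb_le_logb_of_le (b := 2) (by norm_num) h5 h6
      linarith
    rw [pairs_insert hα0 hp]
    push_cast
    rw [← h3']
    nlinarith
  have := key P subset_rfl
  linarith

end OneCoord
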