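import Pool.Agent.Lib_ad0b27_coord.Indep

/-!
`q τ₀ * q τ₁ ∉ K(c)` for different types, the flipping automorphism and the independence theorem.
-/

open Polynomial IntermediateField

namespace OneCoord

variable {K : Type*} [Field K] {Ω : Type*} [Field Ω] [Algebra K Ω]

lemma aeval_ne_zero {c : Ω} (hc : Transcendental K c) {p : K[X]} (hp : p ≠ 0) :
    aeval c p ≠ 0 := fun h => hp (transcendental_iff.1 hc p h)

lemma aeval_inj {c : Ω} (hc : Transcendental K c) {p p' : K[X]} (h : aeval c p = aeval c p') :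
    p = p' := by
  have : aeval c (p - p') = 0 := by rw [map_sub, h, sub_self]
  exact sub_eq_zero.1 (transcendental_iff.1 hc _ this)

lemma eq_of_mem_adjoin [CharZero K] {c : Ω} (hc : Transcendental K c) (τ τ' : K × K)
    (hN : N τ ≠ 0) {y : Ω} (hy : y ^ 2 = aeval c (D τ * D τ')) (hmem : y ∈ K⟮c⟯) : τ = τ' := by
  obtain ⟨r, s, hrs⟩ := (mem_adjoin_simple_iff K y).1 hmem
  have hDD : D τ * D τ' ≠ 0 := mul_ne_zero (D_monic τ).ne_zero (D_monic τ').ne_zero
  have hs : aeval c s ≠ 0 := by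
    intro h0
    rw [h0, div_zero] at hrs
    rw [hrs, zero_pow two_ne_zero] at hy
    exact aeval_ne_zero hc hDD hy.symm
  have hs0 : s ≠ 0 := by
    rintro rfl
    exact hs (map_zero _)
  have h1 : D τ * D τ' * s ^ 2 = r ^ 2 := by
    apply aeval_inj hc
    rw [map_mul, ← hy, map_pow, map_pow, hrs]
    field_simp
  have h2 : s ^ 2 ∣ r ^ 2 := ⟨D τ * D τ', by rw [← h1]; ring⟩
  rw [IsIntegrallyClosed.pow_dvd_pow_iff two_ne_zero] at h2
  obtain ⟨h, rfl⟩ := h2
  apply type_eq_of_sq τ τ' hN h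
  have h3 : s ^ 2 * (h ^ 2 - D τ * D τ') = 0 := by
    rw [mul_sub, sub_eq_zero, mul_comm (s ^ 2) (D τ * D τ'), h1]; ring
  exact sub_eq_zero.1 ((mul_eq_zero.1 h3).resolve_left (pow_ne_zero 2 hs0))

/-- Galois flip: for `y ∉ F`, `y² ∈ F`, there is an `F`-embedding of the algebraic closure of `F`
in `Ω` which maps `y` to `-y`. -/
lemma exists_flip {F : Type*} [Field F] [Algebra F Ω] [IsAlgClosed Ω] {y : Ω} {b : F}
    (hy : y ^ 2 = algebraMap F Ω b) (hmem : y ∉ (algebraMap F Ω).range) :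
    ∃ (y' : algebraicClosure F Ω) (σ : algebraicClosure F Ω →ₐ[F] Ω), (y' : Ω) = y ∧ σ y' = -y := by
  have hint : IsIntegral F y := ⟨X ^ 2 - C b, monic_X_pow_sub_C _ two_ne_zero, by simp [hy]⟩
  have halg : IsAlgebraic F y := hint.isAlgebraic
  let y' : algebraicClosure F Ω := ⟨y, mem_algebraicClosure_iff.2 halg⟩
  have hmin : minpoly F y' = minpoly F y := by
    have := minpoly.algebraMap_eq (A := F) (B := algebraicClosure F Ω) (B' := Ω)
      (algebraMap (algebraicClosure F Ω) Ω).injective y'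
    exact this.symm
  have hmp : minpoly F y = X ^ 2 - C b := by
    symm
    apply minpoly.eq_of_irreducible_of_monic _ (by simp [hy]) (monic_X_pow_sub_C _ two_ne_zero)
    have hdvd : minpoly F y ∣ X ^ 2 - C b := minpoly.dvd F y (by simp [hy])
    have h2 : 2 ≤ (minpoly F y).natDegree := (minpoly.two_le_natDegree_iff hint).2 hmem
    have hmon := minpoly.monic hint
    have heq : minpoly F y = X ^ 2 - C b := by
      apply (eq_of_monic_of_dvd_of_natDegree_le hmon (monic_X_pow_sub_C _ two_ne_zero) hdvd ?_).symm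
      rw [natDegree_X_pow_sub_C]; exact h2
    rw [← heq]
    exact minpoly.irreducible hint
  have hK : ∀ s : algebraicClosure F Ω, IsIntegral F s ∧
      ((minpoly F s).map (algebraMap F Ω)).Splits := by
    intro s
    exact ⟨(Algebra.IsAlgebraic.isAlgebraic s).isIntegral, IsAlgClosed.splits _⟩
  obtain ⟨σ, hσ⟩ := IntermediateField.exists_algHom_of_splits_of_aeval hK (x := y') (y := -y)
    (by rw [hmin, hmp]; simp [hy])
  exact ⟨y', σ, rfl, hσ⟩

end OneCoord
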