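import Mathlib

/-!
Weighted walk count in a graph whose edges carry types and whose vertices carry heights.
-/

set_option linter.unusedSectionVars false

namespace OneCoord

open Finset

variable {V Θ Z : Type*} [DecidableEq V] [DecidableEq Θ] [DecidableEq Z]

/-- the number of walks of length `r` from `x` whose set of types used an odd number of times
is `A` -/
def cnt (Nb : V → Finset V) (T : V → V → Θ) : ℕ → V → Finset Θ → ℕ
  | 0, _, A => if A = ∅ then 1 else 0
  | r + 1, x, A => ∑ y ∈ Nb x, cnt Nb T r y (symmDiff A {T x y})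

/-- `Reach x A y`: some walk from `x` to `y` has parity set `A` -/
inductive Reach (Nb : V → Finset V) (T : V → V → Θ) : V → Finset Θ → V → Prop
  | nil (x : V) : Reach Nb T x ∅ x
  | cons {x y z : V} {A : Finset Θ} (hy : y ∈ Nb x) (h : Reach Nb T y A z) :
      Reach Nb T x (symmDiff A {T x y}) z

variable {Nb : V → Finset V} {T : V → V → Θ}

lemma card_symmDiff_le (A : Finset Θ) (t : Θ) : A.card ≤ (symmDiff A {t}).card + 1 := by
  have h : A ⊆ symmDiff A {t} ∪ {t} := by
    intro a ha
    by_cases hat : a = t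
    · simp [hat]
    · simp [Finset.mem_symmDiff, ha, hat]
  calc A.card ≤ (symmDiff A {t} ∪ {t}).card := card_le_card h
    _ ≤ (symmDiff A {t}).card + ({t} : Finset Θ).card := card_union_le _ _
    _ = _ := by simp

lemma cnt_eq_zero : ∀ (r : ℕ) (x : V) (A : Finset Θ), r < A.card → cnt Nb T r x A = 0
  | 0, x, A, h => by
    have : A ≠ ∅ := by rintro rfl; simp at h
    simp [cnt, this]
  | r + 1, x, A, h => by
    rw [cnt]
    refine sum_eq_zero fun y _ => cnt_eq_zero r y _ ?_
    have := card_symmDiff_le A (T x y)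
    omega

lemma reach_of_cnt : ∀ (r : ℕ) (x : V) (A : Finset Θ), cnt Nb T r x A ≠ 0 →
    ∃ z, Reach Nb T x A z
  | 0, x, A, h => by
    have : A = ∅ := by
      by_contra hA
      simp [cnt, hA] at h
    subst this
    exact ⟨x, Reach.nil x⟩
  | r + 1, x, A, h => by
    rw [cnt] at h
    obtain ⟨y, hy, hy'⟩ := exists_ne_zero_of_sum_ne_zero h
    obtain ⟨z, hz⟩ := reach_of_cnt r y _ hy'
    refine ⟨z, ?_⟩
    have := Reach.cons hy hz
    rwa [symmDiff_symmDiff_cancel_right] at this

lemma sum_cnt (U : Finset Θ) (k : ℕ) (hk : ∀ x, (Nb x).card = k)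
    (hU : ∀ x, ∀ y ∈ Nb x, T x y ∈ U) :
    ∀ (r : ℕ) (x : V), ∑ A ∈ U.powerset, cnt Nb T r x A = k ^ r
  | 0, x => by
    simp only [cnt, pow_zero]
    rw [sum_ite_eq']
    simp
  | r + 1, x => by
    simp only [cnt]
    rw [sum_comm]
    have : ∀ y ∈ Nb x, ∑ A ∈ U.powerset, cnt Nb T r y (symmDiff A {T x y}) = k ^ r := by
      intro y hy
      rw [← sum_cnt U k hk hU r y]
      have hsub : ∀ A ∈ U.powerset, symmDiff A {T x y} ∈ U.powerset := by
        intro A hA
        rw [mem_powerset] at hA ⊢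
        intro a ha
        rw [Finset.mem_symmDiff] at ha
        rcases ha with ⟨h1, _⟩ | ⟨h1, _⟩
        · exact hA h1
        · rw [mem_singleton] at h1; rw [h1]; exact hU x y hy
      refine sum_bij' (fun A _ => symmDiff A {T x y}) (fun A _ => symmDiff A {T x y}) hsub hsub ?_ ?_ ?_
      · intro A _; exact symmDiff_symmDiff_cancel_right _ _
      · intro A _; exact symmDiff_symmDiff_cancel_right _ _
      · intro A _; rfl
    rw [sum_congr rfl this, sum_const, hk, smul_eq_mul, pow_succ, mul_comm]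

/-- number of types of `A` incident with the height `z` -/
def dg (H : Θ → Finset Z) (A : Finset Θ) (z : Z) : ℕ := (A.filter (fun τ => z ∈ H τ)).card

lemma dg_mono (H : Θ → Finset Z) {A B : Finset Θ} (h : A ⊆ B) (z : Z) : dg H A z ≤ dg H B z :=
  card_le_card (filter_subset_filter _ h)

lemma dg_insert (H : Θ → Finset Z) (A : Finset Θ) (t : Θ) (z : Z) :
    dg H (insert t A) z ≤ dg H A z + 1 := by
  unfold dg
  rw [filter_insert]
  split_ifs
  · exact card_insert_le _ _
  · omega

lemma dg_le_card (H : Θ → Finset Z) (A : Finset Θ) (z : Z) : dg H A z ≤ A.card :=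
  card_le_card (filter_subset _ _)

section

variable {h : V → Z} {H : Θ → Finset Z}

lemma sum_dg_le (F1 : ∀ x z, ((Nb x).filter (fun y => h y = z)).card ≤ 2)
    (F3 : ∀ τ, (H τ).card ≤ 4) (x : V) (A : Finset Θ) :
    ∑ y ∈ Nb x, dg H A (h y) ≤ 8 * A.card := by
  have e : ∀ y, dg H A (h y) = ∑ τ ∈ A, if h y ∈ H τ then 1 else 0 := by
    intro y
    rw [dg, card_filter]
  simp only [e]
  rw [sum_comm]
  have : ∀ τ ∈ A, (∑ y ∈ Nb x, if h y ∈ H τ then 1 else 0) ≤ 8 := by
    intro τ _
    rw [← card_filter]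
    have hsub : (Nb x).filter (fun y => h y ∈ H τ) ⊆
        (H τ).biUnion (fun z => (Nb x).filter (fun y => h y = z)) := by
      intro y hy
      rw [mem_filter] at hy
      rw [mem_biUnion]
      exact ⟨h y, hy.2, by rw [mem_filter]; exact ⟨hy.1, rfl⟩⟩
    calc _ ≤ _ := card_le_card hsub
      _ ≤ ∑ z ∈ H τ, ((Nb x).filter (fun y => h y = z)).card := card_biUnion_le
      _ ≤ ∑ z ∈ H τ, 2 := sum_le_sum fun z _ => F1 x z
      _ = (H τ).card * 2 := by rw [sum_const, smul_eq_mul]
      _ ≤ 8 := by have := F3 τ; omega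
  calc _ ≤ ∑ τ ∈ A, 8 := sum_le_sum this
    _ = 8 * A.card := by rw [sum_const, smul_eq_mul, mul_comm]

lemma closing_le (F2 : ∀ x τ, ((Nb x).filter (fun y => T x y = τ)).card ≤ 4)
    (hH : ∀ x, ∀ y ∈ Nb x, h x ∈ H (T x y)) (x : V) (A : Finset Θ) :
    ((Nb x).filter (fun y => T x y ∈ A)).card ≤ 4 * dg H A (h x) := by
  have hsub : (Nb x).filter (fun y => T x y ∈ A) ⊆
      (A.filter (fun τ => h x ∈ H τ)).biUnion (fun τ => (Nb x).filter (fun y => T x y = τ)) := by
    intro y hy
    rw [mem_filter] at hy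
    rw [mem_biUnion]
    refine ⟨T x y, ?_, ?_⟩
    · rw [mem_filter]; exact ⟨hy.2, hH x y hy.1⟩
    · rw [mem_filter]; exact ⟨hy.1, rfl⟩
  calc _ ≤ _ := card_le_card hsub
    _ ≤ ∑ τ ∈ A.filter (fun τ => h x ∈ H τ), ((Nb x).filter (fun y => T x y = τ)).card :=
        card_biUnion_le
    _ ≤ ∑ τ ∈ A.filter (fun τ => h x ∈ H τ), 4 := sum_le_sum fun τ _ => F2 x τ
    _ = 4 * dg H A (h x) := by rw [sum_const, smul_eq_mul, mul_comm, dg]

theorem cnt_le (k : ℕ) (hk64 : 64 ≤ k) (hk : ∀ x, (Nb x).card = k)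
    (F1 : ∀ x z, ((Nb x).filter (fun y => h y = z)).card ≤ 2)
    (F2 : ∀ x τ, ((Nb x).filter (fun y => T x y = τ)).card ≤ 4)
    (F3 : ∀ τ, (H τ).card ≤ 4)
    (hH : ∀ x, ∀ y ∈ Nb x, h x ∈ H (T x y)) :
    ∀ (r : ℕ), 8192 * r ≤ k ^ 2 → ∀ (x : V) (A : Finset Θ),
      (cnt Nb T r x A : ℝ) ≤
        (1 + 32 * dg H A (h x) / k) * (2 * k) ^ r * (1 / 4) ^ (r + A.card)
  | 0, _, x, A => by
    by_cases hA : A = ∅
    · subst hA
      simp [cnt, dg]
    · simp only [cnt, if_neg hA]
      push_cast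
      positivity
  | r + 1, hr, x, A => by
    have hk0 : (0 : ℝ) < k := by
      have : 0 < k := by omega
      exact_mod_cast this
    by_cases hA : r + 1 < A.card
    · rw [cnt_eq_zero _ _ _ hA]
      push_cast
      positivity
    push Not at hA
    have IH := cnt_le k hk64 hk F1 F2 F3 hH r (by omega)
    rw [cnt]
    push_cast
    set M : ℝ := (2 * k) ^ r * (1 / 4) ^ (r + 1 + A.card) with hM
    have hM0 : 0 ≤ M := by positivity
    have step : ∀ y ∈ Nb x, (cnt Nb T r y (symmDiff A {T x y}) : ℝ) ≤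
        M * (1 + 32 / k + 16 * (if T x y ∈ A then 1 else 0) + 512 * dg H A (h y) / k) := by
      intro y _
      refine (IH y _).trans ?_
      by_cases ht : T x y ∈ A
      · have e1 : symmDiff A {T x y} = A.erase (T x y) := by
          ext a
          simp only [Finset.mem_symmDiff, mem_singleton, mem_erase]
          constructor
          · rintro (⟨h1, h2⟩ | ⟨h1, h2⟩)
            · exact ⟨h2, h1⟩
            · rw [h1] at h2; exact absurd ht h2
          · rintro ⟨h1, h2⟩; exact Or.inl ⟨h2, h1⟩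
        have e2 : (A.erase (T x y)).card + 1 = A.card := card_erase_add_one ht
        have e3 : dg H (A.erase (T x y)) (h y) ≤ dg H A (h y) := dg_mono H (erase_subset _ _) _
        have e3' : (dg H (A.erase (T x y)) (h y) : ℝ) ≤ dg H A (h y) := by exact_mod_cast e3
        rw [e1, if_pos ht]
        have e4 : ((1 : ℝ) / 4) ^ (r + (A.erase (T x y)).card) =
            16 * (1 / 4) ^ (r + 1 + A.card) := by
          rw [← e2, show r + 1 + ((A.erase (T x y)).card + 1) = r + (A.erase (T x y)).card + 2 by ring,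
            pow_add _ _ 2]
          ring
        rw [e4]
        have e5 : (1 + 32 * (dg H (A.erase (T x y)) (h y) : ℝ) / k) ≤ 1 + 32 * dg H A (h y) / k := by
          gcongr
        calc (1 + 32 * (dg H (A.erase (T x y)) (h y) : ℝ) / k) * (2 * k) ^ r
              * (16 * (1 / 4) ^ (r + 1 + A.card))
            = M * (16 * (1 + 32 * (dg H (A.erase (T x y)) (h y) : ℝ) / k)) := by rw [hM]; ring
          _ ≤ M * (16 * (1 + 32 * dg H A (h y) / k)) := by gcongr
          _ ≤ M * (1 + 32 / k + 16 * 1 + 512 * dg H A (h y) / k) := by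
            apply mul_le_mul_of_nonneg_left _ hM0
            have : (0 : ℝ) ≤ 32 / k := by positivity
            have e6 : 16 * (1 + 32 * (dg H A (h y) : ℝ) / k) = 16 + 512 * dg H A (h y) / k := by ring
            rw [e6]
            linarith
      · have e1 : symmDiff A {T x y} = insert (T x y) A := by
          ext a
          simp only [Finset.mem_symmDiff, mem_singleton, mem_insert]
          constructor
          · rintro (⟨h1, h2⟩ | ⟨h1, h2⟩)
            · exact Or.inr h1
            · exact Or.inl h1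
          · rintro (h1 | h1)
            · right; exact ⟨h1, h1 ▸ ht⟩
            · left; refine ⟨h1, ?_⟩; rintro rfl; exact ht h1
        have e2 : (insert (T x y) A).card = A.card + 1 := card_insert_of_notMem ht
        have e3 := dg_insert H A (T x y) (h y)
        have e3' : (dg H (insert (T x y) A) (h y) : ℝ) ≤ dg H A (h y) + 1 := by exact_mod_cast e3
        rw [e1, if_neg ht, e2]
        have e4 : ((1 : ℝ) / 4) ^ (r + (A.card + 1)) = (1 / 4) ^ (r + 1 + A.card) := by
          congr 1; ring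
        rw [e4]
        calc (1 + 32 * (dg H (insert (T x y) A) (h y) : ℝ) / k) * (2 * k) ^ r
              * (1 / 4) ^ (r + 1 + A.card)
            = M * (1 + 32 * (dg H (insert (T x y) A) (h y) : ℝ) / k) := by rw [hM]; ring
          _ ≤ M * (1 + 32 * (dg H A (h y) + 1) / k) := by gcongr
          _ ≤ M * (1 + 32 / k + 16 * 0 + 512 * dg H A (h y) / k) := by
            apply mul_le_mul_of_nonneg_left _ hM0
            have e6 : 1 + 32 * ((dg H A (h y) : ℝ) + 1) / k = 1 + 32 / k + 32 * dg H A (h y) / k := by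
              ring
            rw [e6]
            have : 32 * (dg H A (h y) : ℝ) / k ≤ 512 * dg H A (h y) / k := by gcongr; norm_num
            linarith
    refine (sum_le_sum step).trans ?_
    rw [← mul_sum]
    have hc := closing_le (Nb := Nb) (T := T) (h := h) (H := H) F2 hH x A
    have hs := sum_dg_le (Nb := Nb) (h := h) (H := H) F1 F3 x A
    have hc' : (((Nb x).filter (fun y => T x y ∈ A)).card : ℝ) ≤ 4 * dg H A (h x) := by
      exact_mod_cast hc
    have hs' : (∑ y ∈ Nb x, (dg H A (h y) : ℝ)) ≤ 8 * A.card := by exact_mod_cast hs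
    have hsum : ∑ y ∈ Nb x, (1 + 32 / (k : ℝ) + 16 * (if T x y ∈ A then 1 else 0) +
        512 * dg H A (h y) / k) = k * (1 + 32 / k) +
          16 * ((Nb x).filter (fun y => T x y ∈ A)).card
          + 512 / k * ∑ y ∈ Nb x, (dg H A (h y) : ℝ) := by
      have s1 : ∑ y ∈ Nb x, (16 * (if T x y ∈ A then 1 else 0) : ℝ) =
          16 * ((Nb x).filter (fun y => T x y ∈ A)).card := by
        rw [← mul_sum, card_filter]
        push_cast
        rfl
      have s2 : ∑ y ∈ Nb x, (512 * (dg H A (h y) : ℝ) / k) =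
          512 / k * ∑ y ∈ Nb x, (dg H A (h y) : ℝ) := by
        rw [mul_sum]
        refine sum_congr rfl fun y _ => ?_
        ring
      rw [sum_add_distrib, sum_add_distrib, s1, s2, sum_const, hk, nsmul_eq_mul]
    rw [hsum]
    have hA2 : 8192 * (A.card : ℝ) ≤ k ^ 2 := by
      have : 8192 * A.card ≤ k ^ 2 := by nlinarith
      exact_mod_cast this
    have hk64' : (64 : ℝ) ≤ k := by exact_mod_cast hk64
    have key : (k : ℝ) * (1 + 32 / k) + 16 * ((Nb x).filter (fun y => T x y ∈ A)).card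
          + 512 / k * ∑ y ∈ Nb x, (dg H A (h y) : ℝ) ≤ 2 * k + 64 * dg H A (h x) := by
      have t1 : (k : ℝ) * (1 + 32 / k) = k + 32 := by field_simp
      have t2 : 512 / (k : ℝ) * ∑ y ∈ Nb x, (dg H A (h y) : ℝ) ≤ k / 2 := by
        calc 512 / (k : ℝ) * ∑ y ∈ Nb x, (dg H A (h y) : ℝ) ≤ 512 / k * (8 * A.card) := by gcongr
          _ = (8192 * A.card) / (2 * k) := by ring
          _ ≤ k ^ 2 / (2 * k) := by gcongr
          _ = k / 2 := by field_simp
      rw [t1]
      linarith
    calc _ ≤ M * (2 * k + 64 * dg H A (h x)) := mul_le_mul_of_nonneg_left key hM0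
      _ = _ := by
        rw [hM, pow_succ]
        field_simp
        ring

theorem card_ge [Fintype V] [Nonempty V] (k : ℕ) (hk64 : 64 ≤ k) (hk : ∀ x, (Nb x).card = k)
    (F1 : ∀ x z, ((Nb x).filter (fun y => h y = z)).card ≤ 2)
    (F2 : ∀ x τ, ((Nb x).filter (fun y => T x y = τ)).card ≤ 4)
    (F3 : ∀ τ, (H τ).card ≤ 4)
    (hH : ∀ x, ∀ y ∈ Nb x, h x ∈ H (T x y))
    (F4 : ∀ x z A A', Reach Nb T x A z → Reach Nb T x A' z → A = A')
    (R : ℕ) (hR : 8192 * R ≤ k ^ 2) : 2 ^ R ≤ Fintype.card V := by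
  obtain ⟨x⟩ := ‹Nonempty V›
  have hk0 : (0 : ℝ) < k := by
    have : 0 < k := by omega
    exact_mod_cast this
  set U : Finset Θ := univ.biUnion (fun x : V => (Nb x).image (T x)) with hU
  have hU' : ∀ x, ∀ y ∈ Nb x, T x y ∈ U := by
    intro x y hy
    rw [hU, mem_biUnion]
    exact ⟨x, mem_univ _, mem_image_of_mem _ hy⟩
  have hsum := sum_cnt U k hk hU' R x
  set W := U.powerset.filter (fun A => cnt Nb T R x A ≠ 0) with hW
  have hsum2 : ∑ A ∈ W, cnt Nb T R x A = k ^ R := by
    rw [← hsum, hW, sum_filter_ne_zero]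
  have hb : ∀ A ∈ W, (cnt Nb T R x A : ℝ) ≤ (k / 2) ^ R := by
    intro A _
    refine (cnt_le k hk64 hk F1 F2 F3 hH R hR x A).trans ?_
    have d1 : (dg H A (h x) : ℝ) ≤ A.card := by exact_mod_cast dg_le_card H A (h x)
    have d2 : (1 + 32 * (dg H A (h x) : ℝ) / k) ≤ 1 + A.card := by
      have : 32 * (dg H A (h x) : ℝ) / k ≤ A.card := by
        rw [div_le_iff₀ hk0]
        have hk64' : (64 : ℝ) ≤ k := by exact_mod_cast hk64
        have : (0 : ℝ) ≤ A.card := by positivity
        nlinarith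
      linarith
    have d3 : (1 + (A.card : ℝ)) * (1 / 4) ^ A.card ≤ 1 := by
      have : (1 + (A.card : ℝ)) ≤ 4 ^ A.card := by
        have h1 : 1 + A.card ≤ 4 ^ A.card := by
          have := Nat.lt_pow_self (n := A.card) (a := 4) (by norm_num)
          omega
        exact_mod_cast h1
      rw [one_div, inv_pow, ← div_eq_mul_inv, div_le_one (by positivity)]
      exact this
    calc (1 + 32 * (dg H A (h x) : ℝ) / k) * (2 * k) ^ R * (1 / 4) ^ (R + A.card)
        ≤ (1 + A.card) * (2 * k) ^ R * (1 / 4) ^ (R + A.card) := by gcongr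
      _ = ((1 + (A.card : ℝ)) * (1 / 4) ^ A.card) * (k / 2) ^ R := by
        rw [pow_add, show (k : ℝ) / 2 = (2 * k) * (1 / 4) by ring, mul_pow (2 * (k : ℝ))]
        ring
      _ ≤ 1 * (k / 2) ^ R := by gcongr
      _ = _ := one_mul _
  have hcard : (2 : ℝ) ^ R ≤ W.card := by
    have h1 : (k : ℝ) ^ R ≤ W.card * (k / 2) ^ R := by
      calc (k : ℝ) ^ R = ∑ A ∈ W, (cnt Nb T R x A : ℝ) := by exact_mod_cast hsum2.symm
        _ ≤ ∑ A ∈ W, ((k : ℝ) / 2) ^ R := sum_le_sum hb
        _ = _ := by rw [sum_const, nsmul_eq_mul]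
    have h2 : (0 : ℝ) < (k / 2) ^ R := by positivity
    have h3 : (2 : ℝ) ^ R * (k / 2) ^ R = k ^ R := by
      rw [← mul_pow]; congr 1; ring
    rw [← h3] at h1
    exact le_of_mul_le_mul_right h1 h2
  have hcard' : 2 ^ R ≤ W.card := by exact_mod_cast hcard
  refine hcard'.trans ?_
  have hre : ∀ A ∈ W, ∃ z, Reach Nb T x A z := by
    intro A hA
    exact reach_of_cnt R x A (mem_filter.1 hA).2
  choose! f hf using hre
  have hinj : Set.InjOn f W := by
    intro A hA A' hA' hff
    have h1 := hf A hA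
    have h2 := hf A' hA'
    rw [hff] at h1
    exact F4 x _ _ _ h1 h2
  calc W.card = (W.image f).card := (card_image_of_injOn hinj).symm
    _ ≤ _ := card_le_univ _

end

end OneCoord
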