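import Pool.Agent.Lib_ad0b27_coord.Main
import Pool.Agent.Lib_ad0b27_coord.Walk

/-!
The geometric part.
-/

set_option linter.unusedSectionVars false

open Polynomial IntermediateField ComplexConjugate

namespace OneCoord

variable {K : Type*} [Field K] [CharZero K] [Algebra K ℂ]
variable {V : Type*} [Fintype V] [DecidableEq V]

/-- type of a pair of vertices -/
def ty (z : V → K) (x y : V) : K × K := (z x * z y, z x ^ 2 + z y ^ 2)

lemma N_ty (z : V → K) (x y : V) : N (ty z x y) = (1 - z x ^ 2) * (1 - z y ^ 2) := by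
  simp only [N, ty]; ring

/-- the hypotheses on the vertices: `w x` the complex number given by the first two coordinates,
`z x` the height. -/
structure Conf (c : ℂ) (w : V → ℂ) (z : V → K) (Nb : V → Finset V) : Prop where
  nrm : ∀ x, w x * conj (w x) = algebraMap K ℂ (1 - z x ^ 2)
  inj : ∀ x y, w x = w y → z x = z y → x = y
  adj : ∀ x, ∀ y ∈ Nb x, w y * conj (w x) + w x * conj (w y) =
    2 * (c - algebraMap K ℂ (z x * z y))

section

variable {c : ℂ} {w : V → ℂ} {z : V → K} {Nb : V → Finset V} {q : K × K → ℂ}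

lemma Conf.s_eq (hC : Conf c w z Nb) (hq : ∀ τ, q τ ^ 2 = aeval c (D τ)) {x y : V}
    (hy : y ∈ Nb x) : w y * conj (w x) = u c q (ty z x y) ∨ w y * conj (w x) = v c q (ty z x y) := by
  have h1 := hC.adj x y hy
  have hx := hC.nrm x
  have hy' := hC.nrm y
  have huv := u_mul_v hq (ty z x y)
  rw [N_ty, map_mul, ← hx, ← hy'] at huv
  have hsum : u c q (ty z x y) + v c q (ty z x y) = 2 * (c - algebraMap K ℂ (z x * z y)) := by
    simp only [u, v, ty]; ring
  rw [← h1] at hsum
  have : (w y * conj (w x) - u c q (ty z x y)) * (w y * conj (w x) - v c q (ty z x y)) = 0 := by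
    linear_combination (- (w y * conj (w x))) * hsum + huv
  rcases mul_eq_zero.1 this with h | h
  · left; exact sub_eq_zero.1 h
  · right; exact sub_eq_zero.1 h

lemma Conf.N_ne (hC : Conf c w z Nb) (hc : Transcendental K c) {x y : V}
    (hy : y ∈ Nb x) : N (ty z x y) ≠ 0 := by
  intro h0
  rw [N_ty] at h0
  have h1 := hC.adj x y hy
  have hzero : ∀ p : V, 1 - z p ^ 2 = 0 → w p = 0 := by
    intro p hp
    have := hC.nrm p
    rw [hp, map_zero] at this
    rcases mul_eq_zero.1 this with h | h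
    · exact h
    · exact (map_eq_zero _).1 h
  have h2 : w y * conj (w x) + w x * conj (w y) = 0 := by
    rcases mul_eq_zero.1 h0 with h | h
    · rw [hzero _ h]; simp
    · rw [hzero _ h]; simp
  rw [h2] at h1
  have h3 : c = algebraMap K ℂ (z x * z y) := by
    have h4 : c - algebraMap K ℂ (z x * z y) = 0 := by
      have := h1.symm
      rcases mul_eq_zero.1 this with h | h
      · norm_num at h
      · exact h
    exact sub_eq_zero.1 h4
  exact hc (h3 ▸ isAlgebraic_algebraMap _)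

lemma Conf.one_sub_ne (hC : Conf c w z Nb) (hc : Transcendental K c) {x y : V}
    (hy : y ∈ Nb x) : 1 - z x ^ 2 ≠ 0 := by
  have := hC.N_ne hc hy
  rw [N_ty] at this
  exact (mul_ne_zero_iff.1 this).1

lemma Conf.w_ne (hC : Conf c w z Nb) (hc : Transcendental K c) {x y : V}
    (hy : y ∈ Nb x) : w x ≠ 0 := by
  intro h0
  have h1 := hC.nrm x
  rw [h0, zero_mul] at h1
  exact hC.one_sub_ne hc hy ((_root_.map_eq_zero _).1 h1.symm)

lemma Conf.w_eq (hC : Conf c w z Nb) (hc : Transcendental K c) {x y : V}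
    (hy : y ∈ Nb x) : w y = w x * (w y * conj (w x)) * algebraMap K ℂ (1 - z x ^ 2)⁻¹ := by
  have h1 := hC.one_sub_ne hc hy
  have h2 : algebraMap K ℂ (1 - z x ^ 2) ≠ 0 := (_root_.map_ne_zero _).2 h1
  rw [map_inv₀, ← div_eq_mul_inv, eq_div_iff h2, ← hC.nrm x]
  ring

lemma Conf.F1 (hC : Conf c w z Nb) (hc : Transcendental K c)
    (hq : ∀ τ, q τ ^ 2 = aeval c (D τ)) [DecidableEq K] (x : V) (t : K) :
    ((Nb x).filter (fun y => z y = t)).card ≤ 2 := by
  classical
  set τ : K × K := (z x * t, z x ^ 2 + t ^ 2) with hτ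
  have hmaps : ∀ y ∈ (Nb x).filter (fun y => z y = t), w y * conj (w x) ∈
      ({u c q τ, v c q τ} : Finset ℂ) := by
    intro y hy
    rw [Finset.mem_filter] at hy
    have := hC.s_eq hq hy.1
    have ht : ty z x y = τ := by rw [hτ, ty, hy.2]
    rw [ht] at this
    simpa using this
  have hinj : Set.InjOn (fun y => w y * conj (w x)) ((Nb x).filter (fun y => z y = t)) := by
    intro y hy y' hy' h
    rw [Finset.mem_coe, Finset.mem_filter] at hy hy'
    simp only at h
    apply hC.inj y y' _ (by rw [hy.2, hy'.2])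
    rw [hC.w_eq hc hy.1, hC.w_eq hc hy'.1, h]
  calc _ ≤ ({u c q τ, v c q τ} : Finset ℂ).card := Finset.card_le_card_of_injOn _ hmaps hinj
    _ ≤ 2 := Finset.card_le_two

lemma Conf.F2 (hC : Conf c w z Nb) (hc : Transcendental K c)
    (hq : ∀ τ, q τ ^ 2 = aeval c (D τ)) [DecidableEq K] (x : V) (τ : K × K) :
    ((Nb x).filter (fun y => ty z x y = τ)).card ≤ 4 := by
  classical
  by_cases hne : ((Nb x).filter (fun y => ty z x y = τ)).Nonempty
  · obtain ⟨y₀, hy₀⟩ := hne
    rw [Finset.mem_filter] at hy₀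
    have hsub : (Nb x).filter (fun y => ty z x y = τ) ⊆
        (Nb x).filter (fun y => z y = z y₀) ∪ (Nb x).filter (fun y => z y = - z y₀) := by
      intro y hy
      rw [Finset.mem_filter] at hy
      have h1 : ty z x y = ty z x y₀ := hy.2.trans hy₀.2.symm
      simp only [ty, Prod.mk.injEq] at h1
      have h2 : z y ^ 2 = z y₀ ^ 2 := by linear_combination h1.2
      rw [Finset.mem_union, Finset.mem_filter, Finset.mem_filter]
      rcases sq_eq_sq_iff_eq_or_eq_neg.1 h2 with h | h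
      · left; exact ⟨hy.1, h⟩
      · right; exact ⟨hy.1, h⟩
    calc _ ≤ _ := Finset.card_le_card hsub
      _ ≤ _ := Finset.card_union_le _ _
      _ ≤ 2 + 2 := Nat.add_le_add (hC.F1 hc hq x _) (hC.F1 hc hq x _)
  · rw [Finset.not_nonempty_iff_eq_empty] at hne
    rw [hne]; simp

/-- the heights incident with a type -/
noncomputable def Hts [DecidableEq K] (τ : K × K) : Finset K :=
  (X ^ 4 - (C τ.2 * X ^ 2 - C (τ.1 ^ 2)) : K[X]).roots.toFinset

lemma Hts_deg (τ : K × K) :
    (X ^ 4 - (C τ.2 * X ^ 2 - C (τ.1 ^ 2)) : K[X]).natDegree = 4 := by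
  compute_degree!

lemma Hts_card [DecidableEq K] (τ : K × K) : (Hts τ).card ≤ 4 := by
  unfold Hts
  refine (Multiset.toFinset_card_le _).trans ((card_roots' _).trans ?_)
  rw [Hts_deg]

lemma mem_Hts [DecidableEq K] (z : V → K) (x y : V) : z x ∈ Hts (ty z x y) := by
  unfold Hts
  rw [Multiset.mem_toFinset, mem_roots]
  · simp only [IsRoot, ty, eval_sub, eval_pow, eval_X, eval_mul, eval_C]
    ring
  · intro h0
    have := Hts_deg (ty z x y)
    rw [h0] at this
    simp at this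

lemma Conf.reach (hC : Conf c w z Nb) (hc : Transcendental K c)
    (hq : ∀ τ, q τ ^ 2 = aeval c (D τ)) [DecidableEq K] (U : Finset (K × K))
    (hU : ∀ x, ∀ y ∈ Nb x, ty z x y ∈ U) (hUN : ∀ τ ∈ U, N τ ≠ 0) {x y : V} {A : Finset (K × K)}
    (h : Reach Nb (ty z) x A y) : ∃ (n : K × K → ℤ) (κ : K), κ ≠ 0 ∧
      w y = w x * algebraMap K ℂ κ * ∏ τ ∈ U, u c q τ ^ n τ ∧
      (∀ τ, Odd (n τ) ↔ τ ∈ A) ∧ A ⊆ U := by
  classical
  induction h with
  | nil x => exact ⟨fun _ => 0, 1, one_ne_zero, by simp, by simp, by simp⟩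
  | @cons x y y' A hy _ ih =>
    obtain ⟨n, κ, hκ, hw, hn, hA⟩ := ih
    have hτU := hU x y hy
    set τ := ty z x y with hτ
    have hN := hUN τ hτU
    have h1 := hC.one_sub_ne hc hy
    have hsub : symmDiff A {τ} ⊆ U := by
      intro a ha
      rw [Finset.mem_symmDiff] at ha
      rcases ha with ⟨ha, _⟩ | ⟨ha, _⟩
      · exact hA ha
      · rw [Finset.mem_singleton] at ha; rw [ha]; exact hτU
    have hpar : ∀ e : ℤ, Odd e → ∀ τ', Odd (n τ' + if τ' = τ then e else 0) ↔ τ' ∈ symmDiff A {τ} := by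
      intro e he τ'
      rw [Finset.mem_symmDiff, Finset.mem_singleton, ← hn]
      by_cases h : τ' = τ
      · simp only [h, if_true]
        rw [Int.odd_add]
        simp only [not_true_eq_false, and_false, true_and, false_or]
        constructor
        · intro h2 h3
          exact (Int.not_even_iff_odd.2 he) (h2.1 h3)
        · intro h2
          constructor
          · intro h3; exact absurd h3 h2
          · intro h3; exact absurd he (Int.not_odd_iff_even.2 h3)
      · simp [h]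
    have hprod : ∀ e : ℤ, ∏ τ' ∈ U, u c q τ' ^ (n τ' + if τ' = τ then e else 0) =
        (∏ τ' ∈ U, u c q τ' ^ n τ') * u c q τ ^ e := by
      intro e
      have hstep : ∀ τ' ∈ U, u c q τ' ^ (n τ' + if τ' = τ then e else 0) =
          u c q τ' ^ n τ' * (if τ' = τ then u c q τ ^ e else 1) := by
        intro τ' hτ'
        rw [zpow_add₀ (u_ne_zero hq (hUN τ' hτ'))]
        by_cases h : τ' = τ
        · simp [h]
        · simp [h]
      rw [Finset.prod_congr rfl hstep, Finset.prod_mul_distrib, Finset.prod_ite_eq' U τ, if_pos hτU]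
    rcases hC.s_eq hq hy with hs | hs
    · refine ⟨fun τ' => n τ' + if τ' = τ then 1 else 0, κ * (1 - z x ^ 2)⁻¹,
        mul_ne_zero hκ (inv_ne_zero h1), ?_, hpar 1 odd_one, hsub⟩
      rw [hprod, hw, hC.w_eq hc hy, hs, map_mul, zpow_one]
      ring
    · refine ⟨fun τ' => n τ' + if τ' = τ then -1 else 0, κ * N τ * (1 - z x ^ 2)⁻¹,
        mul_ne_zero (mul_ne_zero hκ hN) (inv_ne_zero h1), ?_, hpar (-1) (by decide), hsub⟩
      have hv : v c q τ = algebraMap K ℂ (N τ) * u c q τ ^ (-1 : ℤ) := by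
        rw [← u_mul_v hq, zpow_neg_one]
        field_simp [u_ne_zero hq hN]
      rw [hprod, hw, hC.w_eq hc hy, hs, map_mul, map_mul, hv]
      ring

theorem Conf.card_ge (hC : Conf c w z Nb) (hc : Transcendental K c) [Nonempty V] (k : ℕ)
    (hk64 : 64 ≤ k) (hk : ∀ x, (Nb x).card = k) (R : ℕ) (hR : 8192 * R ≤ k ^ 2) :
    2 ^ R ≤ Fintype.card V := by
  classical
  have hex : ∀ τ : K × K, ∃ t : ℂ, t ^ 2 = aeval c (D τ) := fun τ =>
    IsAlgClosed.exists_pow_nat_eq _ two_pos
  choose q hq using hex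
  refine OneCoord.card_ge (Nb := Nb) (T := ty z) (h := z) (H := Hts) k hk64 hk
    (hC.F1 hc hq) (hC.F2 hc hq) Hts_card (fun x y _ => mem_Hts z x y) ?_ R hR
  intro x y A A' h h'
  set U : Finset (K × K) := Finset.univ.biUnion (fun x : V => (Nb x).image (ty z x)) with hUdef
  have hU : ∀ x, ∀ y ∈ Nb x, ty z x y ∈ U := by
    intro x y hy
    rw [hUdef, Finset.mem_biUnion]
    exact ⟨x, Finset.mem_univ _, Finset.mem_image_of_mem _ hy⟩
  have hUN : ∀ τ ∈ U, N τ ≠ 0 := by
    intro τ hτ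
    rw [hUdef, Finset.mem_biUnion] at hτ
    obtain ⟨x, _, hx⟩ := hτ
    obtain ⟨y, hy, rfl⟩ := Finset.mem_image.1 hx
    exact hC.N_ne hc hy
  obtain ⟨n, κ, hκ, hw, hn, hA⟩ := hC.reach hc hq U hU hUN h
  obtain ⟨n', κ', hκ', hw', hn', hA'⟩ := hC.reach hc hq U hU hUN h'
  have hwx : w x ≠ 0 := by
    have : (Nb x).Nonempty := by
      rw [← Finset.card_pos, hk]; omega
    obtain ⟨y, hy⟩ := this
    exact hC.w_ne hc hy
  have hu0 : ∀ τ ∈ U, u c q τ ≠ 0 := fun τ hτ => u_ne_zero hq (hUN τ hτ)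
  have hP' : ∏ τ ∈ U, u c q τ ^ n' τ ≠ 0 := by
    rw [Finset.prod_ne_zero_iff]
    exact fun τ hτ => zpow_ne_zero _ (hu0 τ hτ)
  have hκc : algebraMap K ℂ κ ≠ 0 := (_root_.map_ne_zero _).2 hκ
  have hrel : ∏ τ ∈ U, u c q τ ^ (n τ - n' τ) = algebraMap K ℂ (κ' / κ) := by
    have h1 : ∏ τ ∈ U, u c q τ ^ (n τ - n' τ) =
        (∏ τ ∈ U, u c q τ ^ n τ) / ∏ τ ∈ U, u c q τ ^ n' τ := by
      rw [← Finset.prod_div_distrib]
      exact Finset.prod_congr rfl fun τ hτ => zpow_sub₀ (hu0 τ hτ) _ _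
    rw [h1, map_div₀, div_eq_div_iff hP' hκc]
    have h2 : w x * (algebraMap K ℂ κ * ∏ τ ∈ U, u c q τ ^ n τ) =
        w x * (algebraMap K ℂ κ' * ∏ τ ∈ U, u c q τ ^ n' τ) := by
      rw [← mul_assoc, ← mul_assoc, ← hw, ← hw']
    have h3 := mul_left_cancel₀ hwx h2
    rw [mul_comm, h3]
  have hz := indep hc hq U hUN (fun τ => n τ - n' τ) _ (div_ne_zero hκ' hκ) hrel
  ext τ
  by_cases hτ : τ ∈ U
  · have := hz τ hτ
    rw [← hn, ← hn', sub_eq_zero.1 this]
  · exact ⟨fun h => absurd (hA h) hτ, fun h => absurd (hA' h) hτ⟩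

end

end OneCoord
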