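import Mathlib

/-!
Multiplicative independence of the angles `u τ`, roots of `X² - 2(c - a)X + (a² - b + 1)`,
`τ = (a, b)`, when `c` is transcendental over the field `K` which contains all `a`, `b`.
-/

open Polynomial

namespace OneCoord

variable {K : Type*} [Field K] {Ω : Type*} [Field Ω] [Algebra K Ω]

/-- discriminant polynomial of a type -/
noncomputable def D (τ : K × K) : K[X] := X ^ 2 - C (2 * τ.1) * X + C (τ.2 - 1)

/-- norm of a type -/
def N (τ : K × K) : K := τ.1 ^ 2 - τ.2 + 1

lemma D_monic (τ : K × K) : (D τ).Monic := by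
  unfold D
  have : (X ^ 2 - C (2 * τ.1) * X + C (τ.2 - 1) : K[X])
      = X ^ 2 + (-(C (2 * τ.1) * X) + C (τ.2 - 1)) := by ring
  rw [this]
  apply monic_X_pow_add
  refine (degree_add_le _ _).trans_lt ?_
  rw [degree_neg]
  refine max_lt ?_ ?_
  · exact (degree_C_mul_X_le _).trans_lt (by norm_num)
  · exact degree_C_le.trans_lt (by norm_num)

lemma D_natDegree (τ : K × K) : (D τ).natDegree = 2 := by
  unfold D
  compute_degree!

lemma eval_D (τ : K × K) (x : K) : (D τ).eval x = x ^ 2 - 2 * τ.1 * x + (τ.2 - 1) := by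
  simp [D]

lemma type_eq_of_sq [CharZero K] (τ τ' : K × K) (hN : N τ ≠ 0) (h : K[X])
    (hh : h ^ 2 = D τ * D τ') : τ = τ' := by
  have hdeg : h.natDegree = 2 := by
    have h1 : (h ^ 2).natDegree = 4 := by
      rw [hh, (D_monic τ).natDegree_mul (D_monic τ'), D_natDegree, D_natDegree]
    rw [natDegree_pow] at h1
    omega
  have hlead : h.leadingCoeff ^ 2 = 1 := by
    rw [← leadingCoeff_pow, hh, ((D_monic τ).mul (D_monic τ')).leadingCoeff]
  have hq := eq_quadratic_of_degree_le_two (p := h) (natDegree_le_iff_degree_le.1 hdeg.le)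
  set l := h.coeff 2 with hl
  set p := h.coeff 1
  set q := h.coeff 0
  have hl2 : l ^ 2 = 1 := by
    rw [hl, ← hlead, leadingCoeff, hdeg]
  have key : ∀ x : K, (l * x ^ 2 + p * x + q) ^ 2 =
      (x ^ 2 - 2 * τ.1 * x + (τ.2 - 1)) * (x ^ 2 - 2 * τ'.1 * x + (τ'.2 - 1)) := by
    intro x
    have h1 := congrArg (eval x) hh
    rw [eval_pow, eval_mul, eval_D, eval_D, hq] at h1
    simpa using h1
  obtain ⟨a, b⟩ := τ
  obtain ⟨a', b'⟩ := τ'
  simp only [N] at hN
  simp only at key
  have e0 := key 0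
  have e1 := key 1
  have e2 := key (-1)
  have e3 := key 2
  have e4 := key (-2)
  -- coefficients
  have c1 : (12 : K) * (2 * p * q - (-(2 * a * (b' - 1)) - 2 * a' * (b - 1))) = 0 := by
    linear_combination 8 * e1 - 8 * e2 - e3 + e4
  have c3 : (12 : K) * (2 * l * p + 2 * a + 2 * a') = 0 := by
    linear_combination (-2) * e1 + 2 * e2 + e3 - e4
  have c2 : (24 : K) * (p ^ 2 + 2 * l * q - ((b - 1) + (b' - 1) + 4 * a * a')) = 0 := by
    linear_combination (-30) * e0 + 16 * e1 + 16 * e2 - e3 - e4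
  have h12 : (12 : K) ≠ 0 := by norm_num
  have h24 : (24 : K) ≠ 0 := by norm_num
  have c1' := (mul_eq_zero.1 c1).resolve_left h12
  have c2' := (mul_eq_zero.1 c2).resolve_left h24
  have c3' := (mul_eq_zero.1 c3).resolve_left h12
  have h2 : (2 : K) ≠ 0 := by norm_num
  have hp : l * p = -(a + a') := by
    have : (2 : K) * (l * p + (a + a')) = 0 := by linear_combination c3'
    linear_combination (mul_eq_zero.1 this).resolve_left h2
  have hp2 : p ^ 2 = (a + a') ^ 2 := by
    have : (l * p) ^ 2 = (a + a') ^ 2 := by rw [hp]; ring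
    calc p ^ 2 = l ^ 2 * p ^ 2 := by rw [hl2]; ring
      _ = (a + a') ^ 2 := by rw [← this]; ring
  have hq1 : 2 * (l * q) = (b - 1) + (b' - 1) + 4 * a * a' - (a + a') ^ 2 := by
    linear_combination c2' - hp2
  have hpq : 2 * ((l * p) * (l * q)) = -(2 * a * (b' - 1)) - 2 * a' * (b - 1) := by
    calc 2 * ((l * p) * (l * q)) = l ^ 2 * (2 * p * q) := by ring
      _ = _ := by rw [hl2]; linear_combination c1'
  have hqq : (l * q) ^ 2 = (b - 1) * (b' - 1) := by
    calc (l * q) ^ 2 = l ^ 2 * q ^ 2 := by ring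
      _ = _ := by rw [hl2]; linear_combination e0
  -- norms
  set n := a ^ 2 - b + 1 with hn
  set n' := a' ^ 2 - b' + 1 with hn'
  have hb : b = a ^ 2 + 1 - n := by rw [hn]; ring
  have hb' : b' = a' ^ 2 + 1 - n' := by rw [hn']; ring
  have hlq : 2 * (l * q) = 2 * a * a' - (n + n') := by rw [hq1, hb, hb']; ring
  have i1 : (a - a') * (n - n') = 0 := by
    have : 2 * (2 * ((l * p) * (l * q))) = 2 * (-(2 * a * (b' - 1)) - 2 * a' * (b - 1)) := by
      rw [hpq]
    rw [hp, hb, hb'] at this
    have h3 : -(a + a') * (2 * (2 * (l * q))) = 2 * (-(2 * a * (a' ^ 2 + 1 - n' - 1))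
        - 2 * a' * (a ^ 2 + 1 - n - 1)) := by linear_combination this
    rw [hlq] at h3
    have h4 : (2 : K) * ((a - a') * (n - n')) = 0 := by linear_combination h3
    exact (mul_eq_zero.1 h4).resolve_left h2
  have i2 : (n - n') ^ 2 + 4 * (a - a') * (a * n' - a' * n) = 0 := by
    have : (2 * (l * q)) ^ 2 = 4 * ((b - 1) * (b' - 1)) := by
      rw [← hqq]; ring
    rw [hlq, hb, hb'] at this
    linear_combination this
  rcases mul_eq_zero.1 i1 with h3 | h3
  · have ha : a = a' := sub_eq_zero.1 h3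
    have h4 : n = n' := by
      rw [ha] at i2
      have : (n - n') ^ 2 = 0 := by linear_combination i2
      exact sub_eq_zero.1 (pow_eq_zero_iff (two_ne_zero)|>.1 this)
    refine Prod.ext ha ?_
    simp only
    rw [hb, hb', ha, h4]
  · have h4 : n = n' := sub_eq_zero.1 h3
    have h5 : 4 * n * (a - a') ^ 2 = 0 := by
      rw [← h4] at i2
      linear_combination i2
    have h6 : (a - a') ^ 2 = 0 := by
      rcases mul_eq_zero.1 h5 with h6 | h6
      · rcases mul_eq_zero.1 h6 with h7 | h7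
        · norm_num at h7
        · exact absurd h7 hN
      · exact h6
    have ha : a = a' := sub_eq_zero.1 (pow_eq_zero_iff (two_ne_zero)|>.1 h6)
    refine Prod.ext ha ?_
    simp only
    rw [hb, hb', ha, h4]

end OneCoord
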