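import Pool.Agent.Lib_ad0b27_coord.Axis

/-!
Swanepoel–Valtr type construction with rational heights, padded to every large `n`.
-/

namespace OneCoord

open Finset

/-- rotation about the third axis -/
noncomputable def rot (t : ℝ) (p : E3) : E3 :=
  !₂[p 0 * Real.cos t - p 1 * Real.sin t, p 0 * Real.sin t + p 1 * Real.cos t, p 2]

@[simp] lemma rot_zero' (t : ℝ) (p : E3) : rot t p 0 = p 0 * Real.cos t - p 1 * Real.sin t := rfl
@[simp] lemma rot_one' (t : ℝ) (p : E3) : rot t p 1 = p 0 * Real.sin t + p 1 * Real.cos t := rfl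
@[simp] lemma rot_two' (t : ℝ) (p : E3) : rot t p 2 = p 2 := rfl

lemma rot_dist (t : ℝ) (p q : E3) : ‖rot t p - rot t q‖ = ‖p - q‖ := by
  have h : ‖rot t p - rot t q‖ ^ 2 = ‖p - q‖ ^ 2 := by
    rw [norm_sq3, norm_sq3]
    simp only [PiLp.sub_apply, rot_zero', rot_one', rot_two']
    have := Real.sin_sq_add_cos_sq t
    linear_combination ((p 0 - q 0) ^ 2 + (p 1 - q 1) ^ 2) * this
  exact (pow_left_inj₀ (norm_nonneg _) (norm_nonneg _) two_ne_zero).1 h

lemma rot_inj (t : ℝ) : Function.Injective (rot t) := by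
  intro p q h
  have h1 := rot_dist t p q
  rw [h, sub_self, norm_zero] at h1
  exact sub_eq_zero.1 (norm_eq_zero.1 h1.symm)

lemma rot_norm (t : ℝ) (p : E3) : ‖rot t p‖ = ‖p‖ := by
  have h := rot_dist t p 0
  have h0 : rot t 0 = 0 := by
    ext i
    fin_cases i <;> simp [rot]
  rwa [h0, sub_zero, sub_zero] at h

lemma rot_pole {t : ℝ} {p : E3} (hp : p 0 ≠ 0 ∨ p 1 ≠ 0) : rot t p 0 ≠ 0 ∨ rot t p 1 ≠ 0 := by
  by_contra hcon
  push Not at hcon
  simp only [rot_zero', rot_one'] at hcon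
  have := Real.sin_sq_add_cos_sq t
  have h1 : p 0 ^ 2 + p 1 ^ 2 = 0 := by
    linear_combination (p 0 * Real.cos t - p 1 * Real.sin t) * hcon.1 +
      (p 0 * Real.sin t + p 1 * Real.cos t) * hcon.2 - (p 0 ^ 2 + p 1 ^ 2) * this
  have h2 : p 0 = 0 := by nlinarith [sq_nonneg (p 0), sq_nonneg (p 1)]
  have h3 : p 1 = 0 := by nlinarith [sq_nonneg (p 0), sq_nonneg (p 1)]
  rcases hp with h | h
  · exact h h2
  · exact h h3

lemma rot_subsingleton {p f : E3} (hp : p 0 ≠ 0 ∨ p 1 ≠ 0) :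
    {t : ℝ | t ∈ Set.Icc (0 : ℝ) 1 ∧ rot t p = f}.Subsingleton := by
  rintro t ⟨ht, h⟩ t' ⟨ht', h'⟩
  have h1 : rot t p = rot t' p := h.trans h'.symm
  have e0 : rot t p 0 = rot t' p 0 := by rw [h1]
  have e1 : rot t p 1 = rot t' p 1 := by rw [h1]
  simp only [rot_zero', rot_one'] at e0 e1
  have hpos : 0 < p 0 ^ 2 + p 1 ^ 2 := by
    rcases hp with h | h
    · have := sq_pos_of_ne_zero h; positivity
    · have := sq_pos_of_ne_zero h; positivity
  have hc : (p 0 ^ 2 + p 1 ^ 2) * (Real.cos t - Real.cos t') = 0 := by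
    linear_combination p 0 * e0 + p 1 * e1
  have hc' : Real.cos t = Real.cos t' :=
    sub_eq_zero.1 ((mul_eq_zero.1 hc).resolve_left hpos.ne')
  have hpi := Real.pi_gt_three
  exact Real.injOn_cos ⟨ht.1, by linarith [ht.2]⟩ ⟨ht'.1, by linarith [ht'.2]⟩ hc'

lemma exists_rot_disjoint (P F : Finset E3) (hP : ∀ p ∈ P, p 0 ≠ 0 ∨ p 1 ≠ 0) :
    ∃ t : ℝ, ∀ p ∈ P, rot t p ∉ F := by
  have hfin : (⋃ p ∈ P, ⋃ f ∈ F, {t : ℝ | t ∈ Set.Icc (0 : ℝ) 1 ∧ rot t p = f}).Finite := by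
    refine Set.Finite.biUnion P.finite_toSet fun p hp => ?_
    refine Set.Finite.biUnion F.finite_toSet fun f _ => ?_
    exact (rot_subsingleton (hP p hp)).finite
  obtain ⟨t, ht, ht'⟩ := (Set.Icc_infinite (zero_lt_one (α := ℝ))).exists_notMem_finite hfin
  refine ⟨t, fun p hp hf => ht' ?_⟩
  simp only [Set.mem_iUnion]
  exact ⟨p, hp, _, hf, ht, rfl⟩

/-- some `n`-point set of the class has all degrees `≥ k` -/
def Good (K : Subfield ℝ) (α : ℝ) (k n : ℕ) : Prop :=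
  ∃ P : Finset E3, P.card = n ∧ (∀ p ∈ P, ‖p‖ = 1 ∧ p 2 ∈ K ∧ (p 0 ≠ 0 ∨ p 1 ≠ 0)) ∧
    ∀ p ∈ P, k ≤ deg α P p

lemma deg_mono (α : ℝ) {P Q : Finset E3} (h : P ⊆ Q) (p : E3) : deg α P p ≤ deg α Q p :=
  card_le_card (filter_subset_filter _ h)

variable {K : Subfield ℝ} {α : ℝ}

lemma good_zero (k : ℕ) : Good K α k 0 := ⟨∅, by simp, by simp, by simp⟩

lemma good_mono {k k' n : ℕ} (h : k ≤ k') (hg : Good K α k' n) : Good K α k n := by
  obtain ⟨P, h1, h2, h3⟩ := hg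
  exact ⟨P, h1, h2, fun p hp => h.trans (h3 p hp)⟩

lemma good_add {k n n' : ℕ} (hg : Good K α k n) (hg' : Good K α k n') : Good K α k (n + n') := by
  classical
  obtain ⟨P, h1, h2, h3⟩ := hg
  obtain ⟨Q, h1', h2', h3'⟩ := hg'
  obtain ⟨t, ht⟩ := exists_rot_disjoint Q P (fun p hp => (h2' p hp).2.2)
  have hdis : Disjoint P (Q.image (rot t)) := by
    rw [disjoint_right]
    intro a ha
    obtain ⟨q, hq, rfl⟩ := mem_image.1 ha
    exact ht q hq
  refine ⟨P ∪ Q.image (rot t), ?_, ?_, ?_⟩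
  · rw [card_union_of_disjoint hdis, card_image_of_injective _ (rot_inj t), h1, h1']
  · intro p hp
    rcases mem_union.1 hp with hp | hp
    · exact h2 p hp
    · obtain ⟨q, hq, rfl⟩ := mem_image.1 hp
      obtain ⟨a, b, d⟩ := h2' q hq
      exact ⟨by rw [rot_norm]; exact a, b, rot_pole d⟩
  · intro p hp
    rcases mem_union.1 hp with hp | hp
    · exact (h3 p hp).trans (deg_mono α subset_union_left p)
    · obtain ⟨q, hq, rfl⟩ := mem_image.1 hp
      refine (h3' q hq).trans (le_trans (le_of_eq ?_) (deg_mono α subset_union_right _))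
      rw [deg, deg, filter_image, card_image_of_injective _ (rot_inj t)]
      congr 1
      ext a
      simp only [mem_filter, rot_dist]

lemma good_mul {k n : ℕ} (hg : Good K α k n) (a : ℕ) : Good K α k (a * n) := by
  induction a with
  | zero => rw [Nat.zero_mul]; exact good_zero k
  | succ a ih => rw [Nat.succ_mul]; exact good_add ih hg

lemma good_pred {k n : ℕ} (hg : Good K α (k + 1) (n + 1)) : Good K α k n := by
  classical
  obtain ⟨P, h1, h2, h3⟩ := hg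
  have hne : P.Nonempty := by rw [← card_pos, h1]; omega
  obtain ⟨v, hv⟩ := hne
  refine ⟨P.erase v, ?_, fun p hp => h2 p (mem_of_mem_erase hp), ?_⟩
  · rw [card_erase_of_mem hv, h1]; rfl
  · intro p hp
    have h4 := h3 p (mem_of_mem_erase hp)
    have h5 : deg α P p ≤ deg α (P.erase v) p + 1 := by
      rw [deg, deg]
      have : P.filter (fun q => ‖p - q‖ = α) ⊆
          insert v ((P.erase v).filter (fun q => ‖p - q‖ = α)) := by
        intro a ha
        rw [mem_filter] at ha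
        rw [mem_insert]
        by_cases hav : a = v
        · left; exact hav
        · right; rw [mem_filter, mem_erase]; exact ⟨⟨hav, ha.1⟩, ha.2⟩
      exact (card_le_card this).trans (card_insert_le _ _)
    omega

lemma good_large {k M : ℕ} (hM : 1 ≤ M) (hg : Good K α (k + 1) (M + 1)) {n : ℕ}
    (hn : M ^ 2 ≤ n) : Good K α k n := by
  have g1 : Good K α k M := good_pred hg
  have g2 : Good K α k (M + 1) := good_mono (Nat.le_succ k) hg
  have h1 : M * (n / M) + n % M = n := Nat.div_add_mod n M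
  have h2 : n % M < M := Nat.mod_lt _ hM
  have h3 : M ≤ n / M := by
    rw [Nat.le_div_iff_mul_le hM]; nlinarith
  obtain ⟨d, hd⟩ : ∃ d, n / M = n % M + d := ⟨n / M - n % M, by omega⟩
  have h4 : n = d * M + (n % M) * (M + 1) := by
    rw [hd] at h1
    linarith [h1, mul_comm M (n % M + d)]
  rw [h4]
  exact good_add (good_mul g1 _) (good_mul g2 _)

/-- point with height `h` and angle `θ` -/
noncomputable def pt (h θ : ℝ) : E3 :=
  !₂[√(1 - h ^ 2) * Real.cos θ, √(1 - h ^ 2) * Real.sin θ, h]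

@[simp] lemma pt0 (h θ : ℝ) : pt h θ 0 = √(1 - h ^ 2) * Real.cos θ := rfl
@[simp] lemma pt1 (h θ : ℝ) : pt h θ 1 = √(1 - h ^ 2) * Real.sin θ := rfl
@[simp] lemma pt2 (h θ : ℝ) : pt h θ 2 = h := rfl

lemma pt_norm {h : ℝ} (θ : ℝ) (hh : h ^ 2 < 1) : ‖pt h θ‖ = 1 := by
  have h1 : ‖pt h θ‖ ^ 2 = 1 ^ 2 := by
    rw [norm_sq3, pt0, pt1, pt2]
    have h2 : √(1 - h ^ 2) ^ 2 = 1 - h ^ 2 := Real.sq_sqrt (by linarith)
    linear_combination (Real.sin θ ^ 2 + Real.cos θ ^ 2) * h2 +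
      (1 - h ^ 2) * Real.sin_sq_add_cos_sq θ
  exact (pow_left_inj₀ (norm_nonneg _) zero_le_one two_ne_zero).1 h1

lemma pt_pole {h : ℝ} (θ : ℝ) (hh : h ^ 2 < 1) : pt h θ 0 ≠ 0 ∨ pt h θ 1 ≠ 0 := by
  have h2 : √(1 - h ^ 2) ≠ 0 := (Real.sqrt_pos.2 (by linarith)).ne'
  by_contra hcon
  push Not at hcon
  rw [pt0, pt1] at hcon
  have h3 := (mul_eq_zero.1 hcon.1).resolve_left h2
  have h4 := (mul_eq_zero.1 hcon.2).resolve_left h2
  have := Real.sin_sq_add_cos_sq θ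
  rw [h3, h4] at this
  norm_num at this

lemma pt_dist {h h' θ θ' α : ℝ} (hh : h ^ 2 < 1) (hh' : h' ^ 2 < 1) (hα : 0 ≤ α)
    (H : √(1 - h ^ 2) * √(1 - h' ^ 2) * Real.cos (θ - θ') + h * h' = 1 - α ^ 2 / 2) :
    ‖pt h θ - pt h' θ'‖ = α := by
  have h1 : ‖pt h θ - pt h' θ'‖ ^ 2 = α ^ 2 := by
    rw [@norm_sub_sq_real, pt_norm θ hh, pt_norm θ' hh', inner3]
    simp only [pt0, pt1, pt2]
    rw [Real.cos_sub] at H
    linear_combination (-2) * H
  exact (pow_left_inj₀ (norm_nonneg _) hα two_ne_zero).1 h1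

/-- the angle between the heights `h` and `h'` -/
noncomputable def ang (c h h' : ℝ) : ℝ :=
  Real.arccos ((c - h * h') / (√(1 - h ^ 2) * √(1 - h' ^ 2)))

lemma cos_ang {c h h' : ℝ} (hh : h ^ 2 < 1) (hh' : h' ^ 2 < 1)
    (H : h ^ 2 + h' ^ 2 + c ^ 2 - 2 * h * h' * c ≤ 1) :
    √(1 - h ^ 2) * √(1 - h' ^ 2) * Real.cos (ang c h h') + h * h' = c := by
  have p1 : 0 < √(1 - h ^ 2) := Real.sqrt_pos.2 (by linarith)
  have p2 : 0 < √(1 - h' ^ 2) := Real.sqrt_pos.2 (by linarith)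
  have q1 : √(1 - h ^ 2) ^ 2 = 1 - h ^ 2 := Real.sq_sqrt (by linarith)
  have q2 : √(1 - h' ^ 2) ^ 2 = 1 - h' ^ 2 := Real.sq_sqrt (by linarith)
  have hab : |c - h * h'| ≤ √(1 - h ^ 2) * √(1 - h' ^ 2) := by
    apply abs_le_of_sq_le_sq
    · rw [mul_pow, q1, q2]; nlinarith
    · positivity
  have hab' := abs_le.1 hab
  have hpos : 0 < √(1 - h ^ 2) * √(1 - h' ^ 2) := by positivity
  rw [ang, Real.cos_arccos]
  · field_simp
    ring
  · rw [le_div_iff₀ hpos]; linarith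
  · rw [div_le_one hpos]; linarith

end OneCoord
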