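import Pool.Agent.Lib_ad0b27_coord.Lower

/-!
The construction.
-/

namespace OneCoord

open Finset

variable {K : Subfield ℝ} {α : ℝ}

lemma cos_add_ang {c h h' : ℝ} (hh : h ^ 2 < 1) (hh' : h' ^ 2 < 1)
    (H : h ^ 2 + h' ^ 2 + c ^ 2 - 2 * h * h' * c ≤ 1) {k : ℕ} (i j : Fin k)
    (S : Finset (Fin k × Fin k)) (φ : Fin k × Fin k → ℝ) (hφ : φ (i, j) = ang c h h') :
    √(1 - h ^ 2) * √(1 - h' ^ 2) *
      Real.cos ((∑ e ∈ S, φ e) - ∑ e ∈ symmDiff S {(i, j)}, φ e) + h * h' = c := by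
  classical
  have h1 := cos_ang hh hh' H
  by_cases hS : (i, j) ∈ S
  · have e1 : symmDiff S {(i, j)} = S.erase (i, j) := by
      ext a
      simp only [Finset.mem_symmDiff, mem_singleton, mem_erase]
      constructor
      · rintro (⟨h1, h2⟩ | ⟨h1, h2⟩)
        · exact ⟨h2, h1⟩
        · rw [h1] at h2; exact absurd hS h2
      · rintro ⟨h1, h2⟩; exact Or.inl ⟨h2, h1⟩
    rw [e1, ← add_sum_erase S φ hS, add_sub_cancel_right, hφ]
    exact h1
  · have e1 : symmDiff S {(i, j)} = insert (i, j) S := by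
      ext a
      simp only [Finset.mem_symmDiff, mem_singleton, mem_insert]
      constructor
      · rintro (⟨h1, h2⟩ | ⟨h1, h2⟩)
        · exact Or.inr h1
        · exact Or.inl h1
      · rintro (h1 | h1)
        · right; exact ⟨h1, h1 ▸ hS⟩
        · left; refine ⟨h1, ?_⟩; rintro rfl; exact hS h1
    rw [e1, sum_insert hS]
    have e2 : (∑ e ∈ S, φ e) - (φ (i, j) + ∑ e ∈ S, φ e) = - φ (i, j) := by ring
    rw [e2, Real.cos_neg, hφ]
    exact h1

lemma exists_good (h0 : 0 < α) (h2 : α < 2) (k : ℕ) :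
    ∃ M : ℕ, M ≤ k * 2 ^ (k ^ 2) ∧ (1 ≤ k → k ≤ M) ∧ Good K α k M := by
  classical
  set c : ℝ := 1 - α ^ 2 / 2 with hc
  have hc2 : c ^ 2 < 1 := by
    have : α ^ 2 < 4 := by nlinarith
    have h3 : 0 < α ^ 2 := by positivity
    rw [hc]; nlinarith
  obtain ⟨m, hm⟩ := exists_nat_gt (4 / (1 - c ^ 2) + 2)
  have hpos : 0 < 1 - c ^ 2 := by linarith
  have hd0 : 0 < 4 / (1 - c ^ 2) := by positivity
  have hm1 : (2 : ℝ) < m := by linarith
  have hm2 : 4 ≤ m * (1 - c ^ 2) := by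
    have : 4 / (1 - c ^ 2) < m := by linarith
    rw [div_lt_iff₀ hpos] at this
    exact this.le
  -- heights
  let ht : Fin k → ℝ := fun i => ((m + i.val : ℕ) : ℝ)⁻¹
  have hmi : ∀ i : Fin k, (m : ℝ) ≤ ((m + i.val : ℕ) : ℝ) := by
    intro i; push_cast; linarith [(Nat.cast_nonneg (i.val) : (0 : ℝ) ≤ i.val)]
  have hht0 : ∀ i, 0 < ht i := by
    intro i
    have := hmi i
    exact inv_pos.2 (by linarith)
  have hhtm : ∀ i, ht i ≤ (m : ℝ)⁻¹ := by
    intro i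
    exact inv_anti₀ (by linarith) (hmi i)
  have hhtK : ∀ i, ht i ∈ K := fun i => inv_mem (natCast_mem K _)
  have hinj : Function.Injective ht := by
    intro i j hij
    have h3 := inv_injective hij
    have h4 : m + i.val = m + j.val := by exact_mod_cast h3
    exact Fin.ext (by omega)
  have hm3 : (m : ℝ)⁻¹ < 1 / 2 := by
    rw [one_div]; exact inv_strictAnti₀ (by norm_num) hm1
  have hht1 : ∀ i, ht i ^ 2 < 1 := by
    intro i
    have := hht0 i
    have := hhtm i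
    nlinarith
  have hH : ∀ i j, ht i ^ 2 + ht j ^ 2 + c ^ 2 - 2 * ht i * ht j * c ≤ 1 := by
    intro i j
    have a0 := hht0 i
    have a1 := hhtm i
    have b0 := hht0 j
    have b1 := hhtm j
    have hm0 : 0 < (m : ℝ)⁻¹ := lt_of_lt_of_le a0 a1
    have i1 : ht i ^ 2 ≤ (m : ℝ)⁻¹ * (m : ℝ)⁻¹ := by nlinarith
    have i2 : ht j ^ 2 ≤ (m : ℝ)⁻¹ * (m : ℝ)⁻¹ := by nlinarith
    have i3 : ht i * ht j ≤ (m : ℝ)⁻¹ * (m : ℝ)⁻¹ := mul_le_mul a1 b1 b0.le hm0.le
    have i4 : 0 < ht i * ht j := mul_pos a0 b0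
    have i5 : -c ≤ 1 := by nlinarith
    have i6 : - 2 * ht i * ht j * c ≤ 2 * ((m : ℝ)⁻¹ * (m : ℝ)⁻¹) := by nlinarith
    have i7 : 4 * (m : ℝ)⁻¹ ≤ 1 - c ^ 2 := by
      rw [mul_inv_le_iff₀ (by linarith)]; linarith
    nlinarith
  -- the set
  let φ : Fin k × Fin k → ℝ := fun e => ang c (ht e.1) (ht e.2)
  let f : Fin k × Finset (Fin k × Fin k) → E3 := fun x => pt (ht x.1) (∑ e ∈ x.2, φ e)
  set G : Finset E3 := univ.image f with hG
  refine ⟨G.card, ?_, ?_, G, rfl, ?_, ?_⟩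
  · refine card_image_le.trans (le_of_eq ?_)
    rw [card_univ, Fintype.card_prod, Fintype.card_fin, Fintype.card_finset, Fintype.card_prod,
      Fintype.card_fin, sq]
  · intro _
    have : (univ.image (fun i : Fin k => f (i, ∅))).card = k := by
      rw [card_image_of_injective, card_univ, Fintype.card_fin]
      intro i j hij
      apply hinj
      have := congrArg (fun p : E3 => p 2) hij
      exact this
    rw [← this]
    apply card_le_card
    intro a ha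
    obtain ⟨i, _, rfl⟩ := mem_image.1 ha
    exact mem_image_of_mem _ (mem_univ _)
  · intro p hp
    obtain ⟨⟨i, S⟩, _, rfl⟩ := mem_image.1 hp
    exact ⟨pt_norm _ (hht1 i), hhtK i, pt_pole _ (hht1 i)⟩
  · intro p hp
    obtain ⟨⟨i, S⟩, _, rfl⟩ := mem_image.1 hp
    have hcard : (univ.image (fun j : Fin k => f (j, symmDiff S {(i, j)}))).card = k := by
      rw [card_image_of_injective, card_univ, Fintype.card_fin]
      intro j j' hij
      apply hinj
      exact congrArg (fun p : E3 => p 2) hij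
    rw [deg]
    conv_lhs => rw [← hcard]
    apply card_le_card
    intro a ha
    obtain ⟨j, _, rfl⟩ := mem_image.1 ha
    rw [mem_filter]
    refine ⟨mem_image_of_mem _ (mem_univ _), ?_⟩
    apply pt_dist (hht1 i) (hht1 j) h0.le
    rw [← hc]
    exact cos_add_ang (hht1 i) (hht1 j) (hH i j) i j S φ rfl

theorem good_of_large (h0 : 0 < α) (h2 : α < 2) (k n : ℕ)
    (hn : 2 ^ (4 * (k + 2) ^ 2) ≤ n) : Good K α k n := by
  obtain ⟨M, hM, hM1, hg⟩ := exists_good (K := K) h0 h2 (k + 2)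
  have h3 : k + 2 ≤ M := hM1 (by omega)
  obtain ⟨M', rfl⟩ : ∃ M', M = M' + 1 := ⟨M - 1, by omega⟩
  apply good_mono (Nat.le_succ k)
  apply good_large (M := M') (by omega) (good_mono (by omega) hg)
  have h4 : k + 2 ≤ 2 ^ ((k + 2) ^ 2) := by
    have h5 : k + 2 < 2 ^ (k + 2) := Nat.lt_two_pow_self
    have h6 : 2 ^ (k + 2) ≤ 2 ^ ((k + 2) ^ 2) := Nat.pow_le_pow_right (by norm_num) (by nlinarith)
    omega
  have h5 : M' ≤ 2 ^ ((k + 2) ^ 2) * 2 ^ ((k + 2) ^ 2) := by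
    calc M' ≤ M' + 1 := Nat.le_succ _
      _ ≤ (k + 2) * 2 ^ ((k + 2) ^ 2) := hM
      _ ≤ _ := Nat.mul_le_mul_right _ h4
  calc M' ^ 2 ≤ (2 ^ ((k + 2) ^ 2) * 2 ^ ((k + 2) ^ 2)) ^ 2 := Nat.pow_le_pow_left h5 2
    _ = 2 ^ (4 * (k + 2) ^ 2) := by
      rw [← pow_add, ← pow_mul]; congr 1; ring
    _ ≤ n := hn

end OneCoord
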