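import Pool.Agent.Lib_ad0b27_coord.Flip

/-!
Independence theorem.
-/

open Polynomial IntermediateField

namespace OneCoord

variable {K : Type*} [Field K] {Ω : Type*} [Field Ω] [Algebra K Ω]

/-- the complex number attached to a type -/
noncomputable def u (c : Ω) (q : K × K → Ω) (τ : K × K) : Ω := c - algebraMap K Ω τ.1 + q τ

/-- the other root -/
noncomputable def v (c : Ω) (q : K × K → Ω) (τ : K × K) : Ω := c - algebraMap K Ω τ.1 - q τ

lemma aeval_D (c : Ω) (τ : K × K) :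
    aeval c (D τ) = c ^ 2 - 2 * algebraMap K Ω τ.1 * c + (algebraMap K Ω τ.2 - 1) := by
  simp only [D, map_add, map_sub, map_mul, map_pow, aeval_X, aeval_C, map_one, map_ofNat]

lemma u_mul_v {c : Ω} {q : K × K → Ω} (hq : ∀ τ, q τ ^ 2 = aeval c (D τ)) (τ : K × K) :
    u c q τ * v c q τ = algebraMap K Ω (N τ) := by
  have h := hq τ
  rw [aeval_D] at h
  simp only [u, v, N, map_add, map_sub, map_pow, map_one]
  linear_combination -h

lemma u_ne_zero {c : Ω} {q : K × K → Ω} (hq : ∀ τ, q τ ^ 2 = aeval c (D τ)) {τ : K × K}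
    (hN : N τ ≠ 0) : u c q τ ≠ 0 := by
  intro h
  have := u_mul_v hq τ
  rw [h, zero_mul] at this
  exact hN ((map_eq_zero _).1 this.symm)

lemma v_ne_zero {c : Ω} {q : K × K → Ω} (hq : ∀ τ, q τ ^ 2 = aeval c (D τ)) {τ : K × K}
    (hN : N τ ≠ 0) : v c q τ ≠ 0 := by
  intro h
  have := u_mul_v hq τ
  rw [h, mul_zero] at this
  exact hN ((map_eq_zero _).1 this.symm)

lemma u_transcendental [CharZero K] {c : Ω} (hc : Transcendental K c) {q : K × K → Ω}
    (hq : ∀ τ, q τ ^ 2 = aeval c (D τ)) {τ : K × K}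
    (hN : N τ ≠ 0) : Transcendental K (u c q τ) := by
  intro h
  apply hc
  have hu := u_ne_zero hq hN
  have hΩ : (2 : Ω) ≠ 0 := by
    have h2 := (algebraMap K Ω).injective.ne (two_ne_zero : (2 : K) ≠ 0)
    rwa [map_ofNat, map_zero] at h2
  have h1 : c = algebraMap K Ω (1 / 2) * (u c q τ + algebraMap K Ω (N τ) * (u c q τ)⁻¹)
      + algebraMap K Ω τ.1 := by
    rw [← u_mul_v hq τ]
    field_simp
    simp only [u, v, map_div₀, map_one, map_ofNat]
    field_simp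
    ring
  rw [h1]
  exact (((isAlgebraic_algebraMap _).mul (h.add ((isAlgebraic_algebraMap _).mul h.inv))).add
    (isAlgebraic_algebraMap _))

lemma zpow_not_mem [CharZero K] {c : Ω} (hc : Transcendental K c) {q : K × K → Ω}
    (hq : ∀ τ, q τ ^ 2 = aeval c (D τ)) {τ : K × K}
    (hN : N τ ≠ 0) {m : ℤ} {κ : K} (h : u c q τ ^ m = algebraMap K Ω κ) : m = 0 := by
  by_contra hm
  have ht := u_transcendental hc hq hN
  have h2 : IsAlgebraic K (u c q τ ^ m.natAbs) := by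
    rcases Int.natAbs_eq m with h3 | h3
    · rw [← zpow_natCast, ← h3, h]; exact isAlgebraic_algebraMap _
    · have : u c q τ ^ m.natAbs = (u c q τ ^ m)⁻¹ := by
        rw [← zpow_natCast, ← zpow_neg, h3]
        simp
      rw [this, h]; exact (isAlgebraic_algebraMap _).inv
  exact ht (h2.of_pow (Int.natAbs_pos.2 hm))

theorem indep [CharZero K] [IsAlgClosed Ω] {c : Ω} (hc : Transcendental K c) {q : K × K → Ω}
    (hq : ∀ τ, q τ ^ 2 = aeval c (D τ)) (S : Finset (K × K)) :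
    ∀ (_hS : ∀ τ ∈ S, N τ ≠ 0) (n : K × K → ℤ) (κ : K) (_hκ : κ ≠ 0)
      (_h : ∏ τ ∈ S, u c q τ ^ n τ = algebraMap K Ω κ), ∀ τ ∈ S, n τ = 0 := by
  classical
  induction S using Finset.strongInduction with
  | H S ih =>
  intro hS n κ hκ h
  by_cases hcard : ∃ τ₀ ∈ S, ∃ τ₁ ∈ S, τ₀ ≠ τ₁
  swap
  · push Not at hcard
    intro τ hτ
    have hSe : S = {τ} := by
      ext τ'
      rw [Finset.mem_singleton]
      exact ⟨fun h' => hcard _ h' _ hτ, fun h' => h' ▸ hτ⟩
    rw [hSe, Finset.prod_singleton] at h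
    exact zpow_not_mem hc hq (hS τ hτ) h
  obtain ⟨τ₀, hτ₀, τ₁, hτ₁, hne⟩ := hcard
  set y : Ω := q τ₀ * q τ₁ with hy
  have hy2 : y ^ 2 = aeval c (D τ₀ * D τ₁) := by
    rw [hy, mul_pow, hq, hq, map_mul]
  have hyn : y ∉ K⟮c⟯ := fun hm => hne (eq_of_mem_adjoin hc τ₀ τ₁ (hS τ₀ hτ₀) hy2 hm)
  have hy0 : y ≠ 0 := by
    intro h0
    exact hyn (h0 ▸ zero_mem _)
  have hΩ : (2 : Ω) ≠ 0 := by
    have h2 := (algebraMap K Ω).injective.ne (two_ne_zero : (2 : K) ≠ 0)
    rwa [map_ofNat, map_zero] at h2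
  have hyy : y ≠ -y := by
    intro h0
    have : 2 * y = 0 := by linear_combination h0
    exact (mul_ne_zero hΩ hy0) this
  -- elements of K(c)
  let F := K⟮c⟯
  let g : F := AdjoinSimple.gen K c
  have hg : algebraMap F Ω g = c := AdjoinSimple.algebraMap_gen K c
  have hgp : ∀ p : K[X], algebraMap F Ω (aeval g p) = aeval c p := by
    intro p
    rw [← aeval_algebraMap_apply, hg]
  obtain ⟨y', σ, hy', hσ⟩ := exists_flip (F := F) (Ω := Ω) (y := y)
    (b := aeval g (D τ₀ * D τ₁)) (by rw [hgp, hy2]) (by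
      rintro ⟨x, hx⟩
      exact hyn (hx ▸ x.2))
  -- lifts of q
  have hqalg : ∀ τ, IsAlgebraic F (q τ) := by
    intro τ
    have : IsAlgebraic F (q τ ^ 2) := by
      rw [hq, ← hgp]; exact isAlgebraic_algebraMap _
    exact this.of_pow two_pos
  let q' : K × K → algebraicClosure F Ω := fun τ => ⟨q τ, mem_algebraicClosure_iff.2 (hqalg τ)⟩
  have hq'2 : ∀ τ, q' τ ^ 2 = algebraMap F (algebraicClosure F Ω) (aeval g (D τ)) := by
    intro τ
    apply Subtype.ext
    change q τ ^ 2 = algebraMap F Ω (aeval g (D τ))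
    rw [hgp, hq]
  have hσq2 : ∀ τ, σ (q' τ) ^ 2 = q τ ^ 2 := by
    intro τ
    rw [← map_pow, hq'2, σ.commutes, hgp, hq]
  have hσq : ∀ τ, σ (q' τ) = q τ ∨ σ (q' τ) = - q τ := fun τ => sq_eq_sq_iff_eq_or_eq_neg.1 (hσq2 τ)
  have hy'q : y' = q' τ₀ * q' τ₁ := Subtype.ext hy'
  have hσy : σ (q' τ₀) * σ (q' τ₁) = - (q τ₀ * q τ₁) := by
    rw [← map_mul, ← hy'q, hσ]
  set S₁ := S.filter (fun τ => σ (q' τ) = q τ) with hS₁
  set S₂ := S.filter (fun τ => ¬ σ (q' τ) = q τ) with hS₂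
  have hex : (∃ τ ∈ S, ¬ σ (q' τ) = q τ) ∧ (∃ τ ∈ S, σ (q' τ) = q τ) := by
    constructor
    · by_contra hcon
      push Not at hcon
      rw [hcon _ hτ₀, hcon _ hτ₁] at hσy
      exact hyy hσy
    · by_contra hcon
      push Not at hcon
      have e0 := (hσq τ₀).resolve_left (hcon _ hτ₀)
      have e1 := (hσq τ₁).resolve_left (hcon _ hτ₁)
      rw [e0, e1] at hσy
      apply hyy
      rw [hy]
      linear_combination hσy
  have hss₁ : S₁ ⊂ S := by
    obtain ⟨τ, hτ, hτ'⟩ := hex.1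
    rw [Finset.ssubset_iff_of_subset (Finset.filter_subset _ _)]
    exact ⟨τ, hτ, by simp [hτ']⟩
  have hss₂ : S₂ ⊂ S := by
    obtain ⟨τ, hτ, hτ'⟩ := hex.2
    rw [Finset.ssubset_iff_of_subset (Finset.filter_subset _ _)]
    exact ⟨τ, hτ, by simp [hτ']⟩
  -- lifts of u
  let u' : K × K → algebraicClosure F Ω := fun τ =>
    algebraMap F (algebraicClosure F Ω) (g - algebraMap K F τ.1) + q' τ
  have hu' : ∀ τ, ((u' τ : algebraicClosure F Ω) : Ω) = u c q τ := by
    intro τ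
    change algebraMap F Ω (g - algebraMap K F τ.1) + q τ = _
    rw [map_sub, hg, ← IsScalarTower.algebraMap_apply, u]
  have hσu : ∀ τ, σ (u' τ) = c - algebraMap K Ω τ.1 + σ (q' τ) := by
    intro τ
    simp only [u']
    rw [map_add, σ.commutes, map_sub, hg, ← IsScalarTower.algebraMap_apply]
  have hrel' : ∏ τ ∈ S, u' τ ^ n τ = algebraMap F (algebraicClosure F Ω) (algebraMap K F κ) := by
    apply (algebraMap (algebraicClosure F Ω) Ω).injective
    rw [map_prod, ← IsScalarTower.algebraMap_apply, ← IsScalarTower.algebraMap_apply, ← h]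
    refine Finset.prod_congr rfl fun τ _ => ?_
    rw [map_zpow₀]
    congr 1
  have hrelσ : ∏ τ ∈ S, σ (u' τ) ^ n τ = algebraMap K Ω κ := by
    have := congrArg σ hrel'
    rw [map_prod, σ.commutes, ← IsScalarTower.algebraMap_apply] at this
    rw [← this]
    exact Finset.prod_congr rfl fun τ _ => (map_zpow₀ σ _ _).symm
  set A := ∏ τ ∈ S₁, u c q τ ^ n τ with hA
  set B := ∏ τ ∈ S₂, u c q τ ^ n τ with hB
  set B' := ∏ τ ∈ S₂, v c q τ ^ n τ with hB'
  have r1 : A * B = algebraMap K Ω κ := by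
    rw [← h, hA, hB, hS₁, hS₂, Finset.prod_filter_mul_prod_filter_not]
  have r2 : A * B' = algebraMap K Ω κ := by
    rw [← hrelσ, ← Finset.prod_filter_mul_prod_filter_not S (fun τ => σ (q' τ) = q τ), hA, hB']
    congr 1
    · refine Finset.prod_congr rfl fun τ hτ => ?_
      rw [hσu, (Finset.mem_filter.1 hτ).2, u]
    · refine Finset.prod_congr rfl fun τ hτ => ?_
      rw [hσu, (hσq τ).resolve_left (Finset.mem_filter.1 hτ).2, v, sub_eq_add_neg (_ - _)]
  set ν : K := ∏ τ ∈ S₂, N τ ^ n τ with hν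
  have hν0 : ν ≠ 0 := by
    rw [hν, Finset.prod_ne_zero_iff]
    intro τ hτ
    exact zpow_ne_zero _ (hS τ (Finset.mem_filter.1 hτ).1)
  have r3 : B * B' = algebraMap K Ω ν := by
    rw [hB, hB', ← Finset.prod_mul_distrib, hν, map_prod]
    refine Finset.prod_congr rfl fun τ _ => ?_
    rw [← mul_zpow, u_mul_v hq, map_zpow₀]
  have hκ' : algebraMap K Ω κ ≠ 0 := (_root_.map_ne_zero _).2 hκ
  have hν' : algebraMap K Ω ν ≠ 0 := (_root_.map_ne_zero _).2 hν0
  have hA0 : A ≠ 0 := by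
    intro h0; rw [h0, zero_mul] at r1; exact hκ' r1.symm
  have hBB : B = B' := mul_left_cancel₀ hA0 (r1.trans r2.symm)
  have e1 : ∏ τ ∈ S₁, u c q τ ^ (2 * n τ) = algebraMap K Ω (κ ^ 2 / ν) := by
    have : ∏ τ ∈ S₁, u c q τ ^ (2 * n τ) = A ^ 2 := by
      rw [hA, ← Finset.prod_pow]
      refine Finset.prod_congr rfl fun τ _ => ?_
      rw [mul_comm, zpow_mul]; norm_cast
    rw [this, map_div₀, map_pow, ← r3, ← hBB, ← r1, eq_div_iff]
    · ring
    · intro h0
      rw [← r3, ← hBB, h0] at hν'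
      exact hν' rfl
  have e2 : ∏ τ ∈ S₂, u c q τ ^ (2 * n τ) = algebraMap K Ω ν := by
    have : ∏ τ ∈ S₂, u c q τ ^ (2 * n τ) = B ^ 2 := by
      rw [hB, ← Finset.prod_pow]
      refine Finset.prod_congr rfl fun τ _ => ?_
      rw [mul_comm, zpow_mul]; norm_cast
    rw [this, ← r3, ← hBB]; ring
  have i1 := ih S₁ hss₁ (fun τ hτ => hS τ (Finset.mem_filter.1 hτ).1) (fun τ => 2 * n τ) _
    (div_ne_zero (pow_ne_zero 2 hκ) hν0) e1
  have i2 := ih S₂ hss₂ (fun τ hτ => hS τ (Finset.mem_filter.1 hτ).1) (fun τ => 2 * n τ) _ hν0 e2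
  intro τ hτ
  by_cases hh : σ (q' τ) = q τ
  · have := i1 τ (Finset.mem_filter.2 ⟨hτ, hh⟩)
    simpa using this
  · have := i2 τ (Finset.mem_filter.2 ⟨hτ, hh⟩)
    simpa using this

end OneCoord
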