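import Pool.Agent.Lib_ad0b27_coord.Geo

/-!
The upper bound for finite subsets of the sphere whose third coordinates lie in a subfield over
which the distance is transcendental.
-/

set_option linter.unusedSectionVars false

open Polynomial IntermediateField ComplexConjugate

namespace OneCoord

abbrev E3 := EuclideanSpace ℝ (Fin 3)

lemma norm_sq3 (p : E3) : ‖p‖ ^ 2 = p 0 ^ 2 + p 1 ^ 2 + p 2 ^ 2 := by
  rw [EuclideanSpace.norm_sq_eq, Fin.sum_univ_three]
  simp [sq_abs]

lemma inner3 (p q : E3) : inner ℝ p q = p 0 * q 0 + p 1 * q 1 + p 2 * q 2 := by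
  rw [EuclideanSpace.inner_eq_star_dotProduct]
  simp [dotProduct, Fin.sum_univ_three, mul_comm]

lemma inner_of_dist {p q : E3} {α : ℝ} (hp : ‖p‖ = 1) (hq : ‖q‖ = 1) (h : ‖p - q‖ = α) :
    p 0 * q 0 + p 1 * q 1 + p 2 * q 2 = 1 - α ^ 2 / 2 := by
  rw [← inner3, ← h, @norm_sub_sq_real, hp, hq]
  ring

lemma transc_c {K : Subfield ℝ} {α : ℝ} (hα : Transcendental K α) :
    Transcendental K (((1 - α ^ 2 / 2 : ℝ)) : ℂ) := by
  intro h
  have h1 : IsAlgebraic K (1 - α ^ 2 / 2 : ℝ) :=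
    (isAlgebraic_algebraMap_iff (A := ℂ) (algebraMap ℝ ℂ).injective).1 h
  apply hα
  have h2 : IsAlgebraic K (α ^ 2) := by
    have e : α ^ 2 = algebraMap K ℝ 2 * (algebraMap K ℝ 1 - (1 - α ^ 2 / 2)) := by
      rw [map_one, map_ofNat]; ring
    rw [e]
    exact (isAlgebraic_algebraMap _).mul ((isAlgebraic_algebraMap _).sub h1)
  exact h2.of_pow two_pos

/-- Main bound, coordinate version. -/
theorem exists_small_degree (K : Subfield ℝ) (α : ℝ) (hα : Transcendental K α)
    (P : Finset E3) (hne : P.Nonempty) (hP : ∀ p ∈ P, ‖p‖ = 1) (hK : ∀ p ∈ P, p 2 ∈ K) :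
    ∃ p ∈ P, ((P.filter (fun q => ‖p - q‖ = α)).card : ℝ) ≤
      91 * √(Real.logb 2 P.card + 1) := by
  classical
  by_contra hcon
  push Not at hcon
  have hcard1 : 1 ≤ P.card := hne.card_pos
  have hcard1' : (1 : ℝ) ≤ P.card := by exact_mod_cast hcard1
  have hlog0 : 0 ≤ Real.logb 2 P.card := Real.logb_nonneg (by norm_num) hcard1'
  set s : ℝ := √(Real.logb 2 P.card + 1) with hs
  have hs1 : 1 ≤ s := by
    rw [hs, Real.one_le_sqrt]; linarith
  have hs2 : s ^ 2 = Real.logb 2 P.card + 1 := Real.sq_sqrt (by linarith)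
  set k : ℕ := ⌊91 * s⌋₊ + 1 with hk
  have hk1 : 91 * s < k := by
    rw [hk]; push_cast; exact Nat.lt_floor_add_one _
  have hk64 : 64 ≤ k := by
    have : (64 : ℝ) ≤ k := by linarith
    exact_mod_cast this
  have hdeg : ∀ p ∈ P, k ≤ (P.filter (fun q => ‖p - q‖ = α)).card := by
    intro p hp
    have := hcon p hp
    rw [hk]
    exact Nat.succ_le_of_lt ((Nat.floor_lt (by positivity)).2 this)
  -- the vertices
  let V := {x : E3 // x ∈ P}
  have : Nonempty V := by
    obtain ⟨p, hp⟩ := hne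
    exact ⟨⟨p, hp⟩⟩
  let w : V → ℂ := fun x => ⟨x.1 0, x.1 1⟩
  let z : V → K := fun x => ⟨x.1 2, hK x.1 x.2⟩
  have hex : ∀ x : V, ∃ N : Finset V, N.card = k ∧ ∀ y ∈ N, ‖x.1 - y.1‖ = α := by
    intro x
    obtain ⟨M, hM, hMk⟩ := Finset.exists_subset_card_eq (hdeg x.1 x.2)
    refine ⟨M.subtype (fun y => y ∈ P), ?_, ?_⟩
    · rw [Finset.card_subtype, Finset.filter_true_of_mem]
      · exact hMk
      · intro y hy; exact (Finset.mem_filter.1 (hM hy)).1
    · intro y hy
      rw [Finset.mem_subtype] at hy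
      exact (Finset.mem_filter.1 (hM hy)).2
  choose Nb hNbk hNb using hex
  have hconj : ∀ x : V, conj (w x) = ⟨x.1 0, -x.1 1⟩ := fun x => rfl
  have hmap : ∀ t : K, algebraMap K ℂ t = ((t : ℝ) : ℂ) := fun t => rfl
  have hC : Conf (K := K) (((1 - α ^ 2 / 2 : ℝ)) : ℂ) w z Nb := by
    refine ⟨?_, ?_, ?_⟩
    · intro x
      have h1 := norm_sq3 x.1
      rw [hP x.1 x.2] at h1
      rw [hconj, hmap]
      apply Complex.ext
      · simp only [Complex.mul_re, Complex.ofReal_re, w]
        push_cast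
        simp only [z]
        linarith
      · simp only [Complex.mul_im, Complex.ofReal_im, w]
        ring
    · intro x y hw hz
      apply Subtype.ext
      have h0 : x.1 0 = y.1 0 := congrArg Complex.re hw
      have h1 : x.1 1 = y.1 1 := congrArg Complex.im hw
      have h2 : x.1 2 = y.1 2 := congrArg Subtype.val hz
      ext i
      fin_cases i
      · exact h0
      · exact h1
      · exact h2
    · intro x y hy
      have h1 := inner_of_dist (hP x.1 x.2) (hP y.1 y.2) (hNb x y hy)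
      have h2 : (2 : ℂ) * (((1 - α ^ 2 / 2 : ℝ) : ℂ) - ((((z x * z y : K)) : ℝ) : ℂ)) =
          ((2 * ((1 - α ^ 2 / 2) - x.1 2 * y.1 2) : ℝ) : ℂ) := by
        push_cast
        rfl
      rw [hconj, hconj, hmap, h2]
      apply Complex.ext
      · simp only [Complex.add_re, Complex.mul_re, Complex.ofReal_re, w]
        linarith
      · simp only [Complex.add_im, Complex.mul_im, Complex.ofReal_im, w]
        ring
  have hR := Nat.div_mul_le_self (k ^ 2) 8192
  have hmain := hC.card_ge (transc_c hα) k hk64 hNbk (k ^ 2 / 8192) (by linarith)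
  have hV : Fintype.card V = P.card := Fintype.card_coe P
  rw [hV] at hmain
  have h1 : ((k ^ 2 / 8192 : ℕ) : ℝ) ≤ Real.logb 2 P.card := by
    rw [Real.le_logb_iff_rpow_le (by norm_num) (by linarith), Real.rpow_natCast]
    exact_mod_cast hmain
  have h2 : (k : ℝ) ^ 2 < 8192 * (((k ^ 2 / 8192 : ℕ) : ℝ) + 1) := by
    have := Nat.lt_div_mul_add (a := k ^ 2) (b := 8192) (by norm_num)
    have h3 : k ^ 2 < 8192 * (k ^ 2 / 8192 + 1) := by linarith
    exact_mod_cast h3
  have h3 : (k : ℝ) ^ 2 < 8192 * s ^ 2 := by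
    rw [hs2]; linarith
  have h4 : (91 * s) ^ 2 < (k : ℝ) ^ 2 := by gcongr
  nlinarith

end OneCoord
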